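import Pool.Agent.R559.NP.Near

/-!
# Thin sets of integer vectors near the multiples of a real vector

If a set `W` of integer vectors in `ℤ^N` has `O(B^(s+ε))` members of norm at most `B`, then for all `ξ` in `ℝ^N` outside a
set of Hausdorff dimension at most `1 + s / (1 - θ)` only finitely many members of `W` are within `A T^θ` of `T ξ` for some
real `T ≥ 1`.
-/

set_option autoImplicit false

namespace Pool.Agent.L7h23.Ray

open Filter Topology MeasureTheory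

/-- `W` has `O_ε (B ^ (s + ε))` elements of norm at most `B` -/
def Thin {ι : Type} [Fintype ι] (W : Set (ι → ℤ)) (s : ℝ) : Prop :=
  ∀ ε : ℝ, 0 < ε → ∃ C : ℝ, ∀ B : ℝ, 1 ≤ B → {c | c ∈ W ∧ ‖c‖ ≤ B}.Finite ∧
    (({c | c ∈ W ∧ ‖c‖ ≤ B}.ncard : ℕ) : ℝ) ≤ C * B ^ (s + ε)

/-- the vector `c` is within `A T ^ θ` of `T ξ` for some real `T ≥ 1` -/
def NearRay {ι : Type} (θ A : ℝ) (ξ : ι → ℝ) (c : ι → ℤ) : Prop :=
  ∃ T : ℝ, 1 ≤ T ∧ ∀ i, |(c i : ℝ) - T * ξ i| ≤ A * T ^ θ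

variable {ι : Type} [Fintype ι]

lemma norm_int (c : ι → ℤ) {B : ℝ} (hB : 0 ≤ B) : ‖c‖ ≤ B ↔ ∀ i, |(c i : ℝ)| ≤ B := by
  rw [pi_norm_le_iff_of_nonneg hB]
  simp only [Int.norm_eq_abs]

lemma ball_fin (B : ℝ) : {c : ι → ℤ | ‖c‖ ≤ B}.Finite := by
  classical
  rcases lt_or_ge B 0 with h | h
  · have : {c : ι → ℤ | ‖c‖ ≤ B} = ∅ := by
      ext c
      simp only [Set.mem_setOf_eq, Set.mem_empty_iff_false, iff_false, not_le]
      exact lt_of_lt_of_le h (norm_nonneg _)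
    rw [this]
    exact Set.finite_empty
  · refine (Finset.finite_toSet (Fintype.piFinset (fun _ : ι => Finset.Icc (-⌊B⌋) ⌊B⌋))).subset ?_
    intro c hc
    rw [Set.mem_setOf_eq, norm_int c h] at hc
    rw [Finset.mem_coe, Fintype.mem_piFinset]
    intro i
    rw [Finset.mem_Icc]
    have h1 := abs_le.1 (hc i)
    constructor
    · rw [neg_le]
      apply Int.le_floor.2
      push_cast
      linarith [h1.1]
    · exact Int.le_floor.2 h1.2

/-- the height of a pair -/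
noncomputable def HH (p : (ι → ℤ) × ℕ) : ℝ := max 1 ‖p.1‖

/-- the point of `ℝ ^ N` belonging to a pair -/
noncomputable def pt (τ : ℝ) (p : (ι → ℤ) × ℕ) : ι → ℝ :=
  fun i => (p.1 i : ℝ) * ((p.2 : ℝ) * HH p ^ (-(1 + τ)))

/-- the pairs -/
def BB (W : Set (ι → ℤ)) (τ : ℝ) (R : ℕ) (p : (ι → ℤ) × ℕ) : Prop :=
  p.1 ∈ W ∧ (p.2 : ℝ) ≤ R * HH p ^ τ

lemma count_pairs {W : Set (ι → ℤ)} {s τ : ℝ} (hτ : 0 < τ) (hW : Thin W s) (R : ℕ) (ε : ℝ) (hε : 0 < ε) :
    ∃ C : ℝ, ∀ B : ℝ, 1 ≤ B → {p | BB W τ R p ∧ HH p ≤ B}.Finite ∧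
      (({p | BB W τ R p ∧ HH p ≤ B}.ncard : ℕ) : ℝ) ≤ C * B ^ (s + τ + ε) := by
  obtain ⟨C, hC⟩ := hW ε hε
  refine ⟨C * (R + 1), fun B hB => ?_⟩
  obtain ⟨h1, h2⟩ := hC B hB
  have hB0 : 0 < B := by linarith
  have hC0 : 0 ≤ C * B ^ (s + ε) := (Nat.cast_nonneg _).trans h2
  obtain ⟨M, hM⟩ : ∃ M : ℕ, M = ⌊R * B ^ τ⌋₊ := ⟨_, rfl⟩
  have hsub : {p | BB W τ R p ∧ HH p ≤ B} ⊆ {c | c ∈ W ∧ ‖c‖ ≤ B} ×ˢ (Finset.range (M + 1) : Set ℕ) := by
    rintro ⟨c, j⟩ ⟨⟨g1, g2⟩, g3⟩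
    simp only [HH] at g2 g3
    refine ⟨⟨g1, (le_max_right _ _).trans g3⟩, ?_⟩
    rw [Finset.mem_coe, Finset.mem_range, hM, Nat.lt_succ_iff]
    apply Nat.le_floor
    refine g2.trans ?_
    apply mul_le_mul_of_nonneg_left _ (by positivity)
    exact Real.rpow_le_rpow (by positivity) g3 hτ.le
  have hfin := h1.prod (Finset.finite_toSet (Finset.range (M + 1)))
  refine ⟨hfin.subset hsub, ?_⟩
  have h3 := Set.ncard_le_ncard hsub hfin
  rw [Set.ncard_prod, Set.ncard_coe_finset, Finset.card_range] at h3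
  have hM1 : (M : ℝ) ≤ R * B ^ τ := by
    rw [hM]
    exact Nat.floor_le (by positivity)
  have hB1 : 1 ≤ B ^ τ := Real.one_le_rpow hB hτ.le
  calc (({p | BB W τ R p ∧ HH p ≤ B}.ncard : ℕ) : ℝ)
      ≤ (({c | c ∈ W ∧ ‖c‖ ≤ B}.ncard : ℕ) : ℝ) * (M + 1) := by exact_mod_cast h3
    _ ≤ (C * B ^ (s + ε)) * ((R + 1) * B ^ τ) := by
        apply mul_le_mul h2 _ (by positivity) hC0
        nlinarith
    _ = C * (R + 1) * B ^ (s + τ + ε) := by
        have : B ^ (s + τ + ε) = B ^ (s + ε) * B ^ τ := by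
          rw [← Real.rpow_add hB0]
          congr 1
          ring
        rw [this]
        ring

theorem ray_dim {W : Set (ι → ℤ)} {s θ : ℝ} (hs : 0 ≤ s) (h1 : θ < 1) (hW : Thin W s) :
    ∃ E : Set (ι → ℝ), dimH E ≤ ENNReal.ofReal (1 + s / (1 - θ)) ∧
      ∀ ξ : ι → ℝ, ξ ∉ E → ∀ A : ℝ, {c | c ∈ W ∧ NearRay θ A ξ c}.Finite := by
  classical
  obtain ⟨τ, hτ⟩ : ∃ τ : ℝ, τ = 1 - θ := ⟨_, rfl⟩
  have hτ0 : 0 < τ := by linarith
  have hθτ : θ = 1 - τ := by linarith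
  have hH1 : ∀ p : (ι → ℤ) × ℕ, 1 ≤ HH p := fun p => le_max_left _ _
  have key := fun R : ℕ => Pool.Agent.R559.NP.near_dim (T := (ι → ℤ) × ℕ) (X := ι → ℝ) (H := HH) hH1
    (Bad := BB W τ R) (s := s + τ) (τ := τ) (by linarith) hτ0 (count_pairs hτ0 hW R) (pt τ)
  choose E hE1 hE2 using key
  refine ⟨⋃ R, E R, ?_, fun ξ hξ A => ?_⟩
  · rw [dimH_iUnion]
    refine iSup_le fun R => (hE1 R).trans (le_of_eq ?_)
    congr 1
    rw [← hτ]
    field_simp
    ring
  · rw [Set.mem_iUnion] at hξ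
    push Not at hξ
    obtain ⟨R, hR⟩ := exists_nat_ge (‖ξ‖ + |A| + 1)
    have hA0 := abs_nonneg A
    have hn0 := norm_nonneg ξ
    have hR1 : (1 : ℝ) ≤ R := by linarith
    have hR0 : (0 : ℝ) < R := by linarith
    obtain ⟨A', hA'⟩ : ∃ A' : ℝ, A' = 1 + |A| * (R : ℝ) ^ τ := ⟨_, rfl⟩
    refine ((hE2 R ξ (hξ R) A').image Prod.fst).subset ?_
    rintro c ⟨hcW, T, hT1, hT⟩
    have hT0 : 0 < T := by linarith
    have hTA : ∀ i, |(c i : ℝ) - T * ξ i| ≤ |A| * T ^ θ := fun i =>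
      (hT i).trans (mul_le_mul_of_nonneg_right (le_abs_self A) (by positivity))
    have hTθ : T ^ θ ≤ T := by
      calc T ^ θ ≤ T ^ (1 : ℝ) := Real.rpow_le_rpow_of_exponent_le hT1 h1.le
        _ = T := Real.rpow_one T
    obtain ⟨H, hH⟩ : ∃ H : ℝ, H = max 1 ‖c‖ := ⟨_, rfl⟩
    have hH1' : 1 ≤ H := by rw [hH]; exact le_max_left _ _
    have hH0 : 0 < H := by linarith
    have hHT : H ≤ R * T := by
      rw [hH]
      apply max_le
      · nlinarith
      · rw [norm_int c (by positivity)]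
        intro i
        have h2 : |ξ i| ≤ ‖ξ‖ := by
          rw [← Real.norm_eq_abs]
          exact norm_le_pi_norm ξ i
        calc |(c i : ℝ)| = |T * ξ i + ((c i : ℝ) - T * ξ i)| := by congr 1; ring
          _ ≤ |T * ξ i| + |(c i : ℝ) - T * ξ i| := abs_add_le _ _
          _ ≤ T * ‖ξ‖ + |A| * T := by
              apply add_le_add _ ((hTA i).trans (mul_le_mul_of_nonneg_left hTθ hA0))
              rw [abs_mul, abs_of_pos hT0]
              exact mul_le_mul_of_nonneg_left h2 hT0.le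
          _ ≤ R * T := by nlinarith
    obtain ⟨δ, hδ⟩ : ∃ δ : ℝ, δ = H ^ (-(1 + τ)) := ⟨_, rfl⟩
    have hδ0 : 0 < δ := by rw [hδ]; positivity
    have hδ1 : δ * (H * H ^ τ) = 1 := by
      have : H * H ^ τ = H ^ (1 + τ) := by rw [Real.rpow_add hH0, Real.rpow_one]
      rw [this, hδ, ← Real.rpow_add hH0]
      simp
    obtain ⟨j, hj⟩ : ∃ j : ℕ, j = ⌊(1 / T) / δ⌋₊ := ⟨_, rfl⟩
    have hj1 : (j : ℝ) * δ ≤ 1 / T := by
      rw [hj, ← le_div_iff₀ hδ0]
      exact Nat.floor_le (by positivity)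
    have hj2 : 1 / T ≤ (j : ℝ) * δ + δ := by
      have h2 := (Nat.lt_floor_add_one ((1 / T) / δ)).le
      rw [← hj, div_le_iff₀ hδ0] at h2
      linarith
    have hHH : HH (c, j) = H := by rw [HH, hH]
    refine ⟨(c, j), ⟨?_, hcW, ?_⟩, rfl⟩
    · -- the distance
      rw [hHH, dist_pi_le_iff (by rw [hA']; positivity)]
      intro i
      rw [Real.dist_eq]
      simp only [pt, hHH]
      rw [← hδ]
      have hci : |(c i : ℝ)| ≤ H := by
        rw [← Int.norm_eq_abs, hH]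
        exact (norm_le_pi_norm c i).trans (le_max_right _ _)
      have h2 : |(c i : ℝ) * ((j : ℝ) * δ) - (c i : ℝ) * (1 / T)| ≤ H * δ := by
        rw [← mul_sub, abs_mul]
        apply mul_le_mul hci _ (abs_nonneg _) hH0.le
        rw [abs_le]
        constructor <;> linarith
      have h3 : |(c i : ℝ) * (1 / T) - ξ i| ≤ |A| * T ^ (-τ) := by
        have h4 : (c i : ℝ) * (1 / T) - ξ i = ((c i : ℝ) - T * ξ i) * (1 / T) := by field_simp
        rw [h4, abs_mul, abs_of_pos (by positivity : (0 : ℝ) < 1 / T)]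
        calc |(c i : ℝ) - T * ξ i| * (1 / T) ≤ (|A| * T ^ θ) * (1 / T) :=
              mul_le_mul_of_nonneg_right (hTA i) (by positivity)
          _ = |A| * T ^ (-τ) := by
              have : T ^ (-τ) = T ^ θ * (1 / T) := by
                rw [one_div, ← Real.rpow_neg_one, ← Real.rpow_add hT0]
                congr 1
                linarith
              rw [this]
              ring
      have h5 : H * δ = H ^ (-τ) := by
        rw [hδ]
        nth_rw 1 [← Real.rpow_one H]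
        rw [← Real.rpow_add hH0]
        congr 1
        ring
      have h6 : T ^ (-τ) ≤ (R : ℝ) ^ τ * H ^ (-τ) := by
        have h7 : H ^ τ ≤ (R : ℝ) ^ τ * T ^ τ := by
          rw [← Real.mul_rpow hR0.le hT0.le]
          exact Real.rpow_le_rpow hH0.le hHT hτ0.le
        rw [Real.rpow_neg hT0.le, Real.rpow_neg hH0.le, ← div_eq_mul_inv, ← one_div,
          div_le_div_iff₀ (by positivity) (by positivity), one_mul]
        exact h7
      calc |(c i : ℝ) * ((j : ℝ) * δ) - ξ i|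
          ≤ |(c i : ℝ) * ((j : ℝ) * δ) - (c i : ℝ) * (1 / T)| + |(c i : ℝ) * (1 / T) - ξ i| := abs_sub_le _ _ _
        _ ≤ H * δ + |A| * T ^ (-τ) := add_le_add h2 h3
        _ ≤ H ^ (-τ) + |A| * ((R : ℝ) ^ τ * H ^ (-τ)) := by
            rw [h5]
            gcongr
        _ = A' * H ^ (-τ) := by rw [hA']; ring
    · -- the index
      show (j : ℝ) ≤ R * HH (c, j) ^ τ
      rw [hHH]
      have h7 : (j : ℝ) * δ * (H * H ^ τ) ≤ 1 / T * (H * H ^ τ) := mul_le_mul_of_nonneg_right hj1 (by positivity)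
      rw [mul_assoc, hδ1, mul_one] at h7
      refine h7.trans ?_
      rw [one_div, inv_mul_le_iff₀ hT0]
      have h8 := mul_le_mul_of_nonneg_right hHT (by positivity : (0 : ℝ) ≤ H ^ τ)
      linarith

/-- sets of small dimension are null sets -/
theorem null_of_dim [Nonempty ι] {E : Set (ι → ℝ)} {D : ℝ} (h : dimH E ≤ ENNReal.ofReal D)
    (hD : D < Fintype.card ι) : volume E = 0 := by
  have hc : (0 : ℝ) < Fintype.card ι := by exact_mod_cast Fintype.card_pos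
  have h1 : dimH E < ((Fintype.card ι : NNReal) : ENNReal) := by
    refine lt_of_le_of_lt h ?_
    rw [show ((Fintype.card ι : NNReal) : ENNReal) = ENNReal.ofReal (Fintype.card ι) by
      rw [ENNReal.ofReal_natCast]; rfl]
    exact (ENNReal.ofReal_lt_ofReal_iff hc).2 hD
  have h2 : Measure.hausdorffMeasure (Fintype.card ι : ℝ) E = 0 := by
    have := hausdorffMeasure_of_dimH_lt h1
    simpa using this
  rw [← hausdorffMeasure_pi_real]
  exact h2

/-- the statement for almost all vectors -/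
theorem ray_ae {W : Set (ι → ℤ)} {s : ℝ} (hs : 0 ≤ s) (hW : Thin W s) (hs1 : s < (Fintype.card ι : ℝ) - 1) :
    ∀ᵐ ξ : ι → ℝ, ∀ θ A : ℝ, θ < 1 - s / ((Fintype.card ι : ℝ) - 1) → {c | c ∈ W ∧ NearRay θ A ξ c}.Finite := by
  obtain ⟨N, hN⟩ : ∃ N : ℝ, N = (Fintype.card ι : ℝ) - 1 := ⟨_, rfl⟩
  rw [← hN] at hs1 ⊢
  have hN0 : 0 < N := lt_of_le_of_lt hs hs1
  have hne : Nonempty ι := by
    rw [← Fintype.card_pos_iff]
    have : (0 : ℝ) < Fintype.card ι := by linarith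
    exact_mod_cast this
  have hr : 0 < 1 - s / N := by
    rw [sub_pos, div_lt_one hN0]
    exact hs1
  have key := fun j : ℕ => ray_dim hs (θ := 1 - s / N - (1 - s / N) / ((j : ℝ) + 2)) (W := W) (by
    have h2 : 0 < (1 - s / N) / ((j : ℝ) + 2) := by positivity
    have h3 : 0 ≤ s / N := by positivity
    linarith) hW
  choose E hE1 hE2 using key
  have hnull : ∀ j, volume (E j) = 0 := by
    intro j
    refine null_of_dim (hE1 j) ?_
    obtain ⟨η, hη⟩ : ∃ η : ℝ, η = (1 - s / N) / ((j : ℝ) + 2) := ⟨_, rfl⟩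
    have hη0 : 0 < η := by rw [hη]; positivity
    have h3 : 0 ≤ s / N := by positivity
    have h4 : s / N + η > 0 := by linarith
    have h5 : 1 - (1 - s / N - η) = s / N + η := by ring
    rw [← hη, h5]
    have h6 : s / (s / N + η) < N := by
      rw [div_lt_iff₀ h4]
      have : N * (s / N + η) = s + N * η := by field_simp
      rw [this]
      nlinarith
    linarith
  have h1 : ∀ᵐ ξ : ι → ℝ, ∀ j, ξ ∉ E j := ae_all_iff.2 fun j => by
    rw [ae_iff]
    simpa using hnull j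
  filter_upwards [h1] with ξ hξ θ A hθ
  obtain ⟨j, hj⟩ : ∃ j : ℕ, (1 - s / N) / ((j : ℝ) + 2) ≤ 1 - s / N - θ := by
    obtain ⟨j, hj⟩ := exists_nat_ge ((1 - s / N) / (1 - s / N - θ))
    refine ⟨j, ?_⟩
    have h2 : 0 < 1 - s / N - θ := by linarith
    rw [div_le_iff₀ h2] at hj
    rw [div_le_iff₀ (by positivity)]
    nlinarith
  refine (hE2 j ξ (hξ j) |A|).subset ?_
  rintro c ⟨hc, T, hT1, hT⟩
  refine ⟨hc, T, hT1, fun i => (hT i).trans ?_⟩
  calc A * T ^ θ ≤ |A| * T ^ θ := mul_le_mul_of_nonneg_right (le_abs_self A) (by positivity)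
    _ ≤ |A| * T ^ (1 - s / N - (1 - s / N) / ((j : ℝ) + 2)) :=
      mul_le_mul_of_nonneg_left (Real.rpow_le_rpow_of_exponent_le hT1 (by linarith)) (abs_nonneg A)

end Pool.Agent.L7h23.Ray
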