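import Pool.Agent.Results.MP_2d259b_nt.RandomResidues
import Pool.Agent.L7h23.Ray

/-!
# The exceptional plane curves as a thin set of coefficient vectors
-/

set_option autoImplicit false

namespace Pool.Agent.L7h23.CV

open Pool.Agent.H322R2 hiding ht
open Pool.Agent.Results.MP_2d259b_nt.RandomResidues (len ht Regular FarZero coeff_le ht_pos count_bad)
open Pool.Agent.L7h23.Ray

/-- the coefficient vectors of the exceptional polynomials -/
def W (d : ℕ) : Set (↥(Ix d) → ℤ) := {c | Regular d (FM c) ∧ FarZero d (FM c)}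

/-- the vector of the coefficients of `x ^ i y ^ j`, `i + j ≤ d` -/
noncomputable def vec (d : ℕ) (F : MvPolynomial (Fin 2) ℤ) : ↥(Ix d) → ℤ :=
  fun p => F.coeff (Finsupp.single 0 p.1.1 + Finsupp.single 1 p.1.2)

lemma fm_vec {d : ℕ} {F : MvPolynomial (Fin 2) ℤ} (hF : F.totalDegree ≤ d) : FM (vec d F) = F := by
  obtain ⟨c, -, hc⟩ := (FM_memV (d := d) (H := ht F) (F := F)).1 ⟨hF, fun m => by
    have := coeff_le F m
    rw [Int.abs_eq_natAbs]
    exact_mod_cast this⟩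
  have : vec d F = c := by
    funext p
    rw [vec, ← hc, coeff_FM]
    simp only [Finsupp.add_apply, Finsupp.single_eq_same]
    rw [Finsupp.single_eq_of_ne (by simp), Finsupp.single_eq_of_ne (by simp), add_zero, zero_add, cf, dif_pos p.2]
  rw [this, hc]

lemma ht_fm {d : ℕ} (c : ↥(Ix d) → ℤ) {B : ℝ} (hB : 0 ≤ B) (h : ‖c‖ ≤ B) : (ht (FM c) : ℝ) ≤ B := by
  rw [norm_int c hB] at h
  have h1 : ht (FM c) ≤ ⌊B⌋₊ := by
    rw [ht]
    apply Finset.sup_le
    intro m _
    apply Nat.le_floor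
    rw [coeff_FM, cf]
    split_ifs with h2
    · have := h ⟨(m 0, m 1), h2⟩
      rwa [Nat.cast_natAbs, Int.cast_abs]
    · simpa using hB
  exact (Nat.cast_le.2 h1).trans (Nat.floor_le hB)

/-- **the exceptional curves are few** -/
theorem thin_W {d : ℕ} (hd : 4 ≤ d) : Thin (W d) (4 * d - 2) := by
  intro ε hε
  have hcast : ((4 * d - 2 : ℕ) : ℝ) = 4 * d - 2 := by
    rw [Nat.cast_sub (by omega)]
    push_cast
    ring
  obtain ⟨C, hC⟩ := count_bad hd ε hε
  rw [hcast] at hC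
  refine ⟨C, fun B hB => ?_⟩
  obtain ⟨h1, h2⟩ := hC B hB
  have hinj : Set.InjOn (FM (d := d)) {c | c ∈ W d ∧ ‖c‖ ≤ B} := FM_injectiveV.injOn
  have hsub : FM '' {c | c ∈ W d ∧ ‖c‖ ≤ B} ⊆
      {F : MvPolynomial (Fin 2) ℤ | F ∈ {F | Regular d F ∧ FarZero d F} ∧ (ht F : ℝ) ≤ B} := by
    rintro F ⟨c, ⟨hc1, hc2⟩, rfl⟩
    exact ⟨hc1, ht_fm c (by linarith) hc2⟩
  refine ⟨Set.Finite.of_finite_image (h1.subset hsub) hinj, ?_⟩
  rw [← hinj.ncard_image]
  exact le_trans (by exact_mod_cast Set.ncard_le_ncard hsub h1) h2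

lemma card_idx (d : ℕ) : (Fintype.card ↥(Ix d) : ℝ) - 1 = d * (d + 3) / 2 := by
  rw [Fintype.card_coe, card_Ix]
  have h2 : 2 ∣ (d + 1) * (d + 2) := by
    rcases Nat.even_or_odd (d + 1) with h | h
    · exact Dvd.dvd.mul_right h.two_dvd _
    · have : Even (d + 2) := by
        have := h.add_one
        rwa [show d + 1 + 1 = d + 2 by ring] at this
      exact Dvd.dvd.mul_left this.two_dvd _
  rw [Nat.cast_div h2 (by norm_num)]
  push_cast
  ring

end Pool.Agent.L7h23.CV
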