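import Pool.Agent.Results.MP_f2148a_nt.AlmostAllK
import Pool.Agent.Results.MP_f2148a_nt.SparseViolations

/-!
# The number of exceptional `k` in Mordell's equation, in the form used by the metric tools

The starting theorems `AlmostAllK` and `SparseViolations` as counts of the sets of the exceptional `k`.
-/

set_option autoImplicit false

namespace Pool.Agent.L7h23.HK

/-- the equation `y ^ 2 = x ^ 3 + k` has no integral solution with `|x| ≤ exp (|k| ^ (1 / 10000))` -/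
def NoPoint (k : ℤ) : Prop :=
  ¬ ∃ x y : ℤ, y ^ 2 = x ^ 3 + k ∧ |(x : ℝ)| ≤ Real.exp (|(k : ℝ)| ^ ((1 : ℝ) / 10000))

/-- Hall's inequality with the constant `C` for the integral solutions of `y ^ 2 = x ^ 3 + k` with `|x| ≤ |k| ^ A` -/
def HallUpTo (C A : ℝ) (k : ℤ) : Prop :=
  ∀ x y : ℤ, y ^ 2 = x ^ 3 + k → |(x : ℝ)| ≤ |(k : ℝ)| ^ A → max |(x : ℝ)| |(y : ℝ)| ≤ C * |(k : ℝ)| ^ 3

theorem HallUpTo.mono {C C' A : ℝ} {k : ℤ} (h : HallUpTo C A k) (hC : C ≤ C') : HallUpTo C' A k := by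
  intro x y h1 h2
  exact (h x y h1 h2).trans (mul_le_mul_of_nonneg_right hC (by positivity))

theorem fin_aux (X : ℝ) (P : ℤ → Prop) : {k : ℤ | P k ∧ |(k : ℝ)| ≤ X}.Finite := by
  apply (Set.finite_Icc (-⌊X⌋) ⌊X⌋).subset
  intro k hk
  have h1 := hk.2
  rw [← Int.cast_abs] at h1
  exact abs_le.1 (Int.le_floor.2 h1)

theorem count_no (ε : ℝ) (hε : 0 < ε) : ∃ C : ℝ, ∀ X : ℝ, 1 ≤ X →
    {k : ℤ | (k ≠ 0 ∧ ¬ NoPoint k) ∧ |(k : ℝ)| ≤ X}.Finite ∧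
      ({k : ℤ | (k ≠ 0 ∧ ¬ NoPoint k) ∧ |(k : ℝ)| ≤ X}.ncard : ℝ) ≤ C * X ^ (99 / 100 + ε) := by
  obtain ⟨K, hK⟩ := Pool.Agent.Results.MP_f2148a_nt.AlmostAllK.result
  refine ⟨K, fun X hX => ⟨fin_aux X _, ?_⟩⟩
  have hK0 : 0 ≤ K := by
    have := hK 1 le_rfl
    rw [Real.one_rpow, Real.one_rpow, mul_one] at this
    exact le_trans (Nat.cast_nonneg _) this
  refine le_trans ?_ ((hK X hX).trans (mul_le_mul_of_nonneg_left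
    (Real.rpow_le_rpow_of_exponent_le hX (by linarith)) hK0))
  have hfin : {k : ℤ | k ≠ 0 ∧ |(k : ℝ)| ≤ X ∧ ∃ x y : ℤ, y ^ 2 = x ^ 3 + k ∧
      |(x : ℝ)| ≤ Real.exp (X ^ ((1 : ℝ) / 10000))}.Finite :=
    (fin_aux X (fun _ => True)).subset fun k hk => ⟨trivial, hk.2.1⟩
  have : {k : ℤ | (k ≠ 0 ∧ ¬ NoPoint k) ∧ |(k : ℝ)| ≤ X} ⊆
      {k : ℤ | k ≠ 0 ∧ |(k : ℝ)| ≤ X ∧ ∃ x y : ℤ, y ^ 2 = x ^ 3 + k ∧
      |(x : ℝ)| ≤ Real.exp (X ^ ((1 : ℝ) / 10000))} := by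
    rintro k ⟨⟨h3, h2⟩, h5⟩
    unfold NoPoint at h2
    rw [not_not] at h2
    obtain ⟨x, y, e1, e2⟩ := h2
    refine ⟨h3, h5, x, y, e1, e2.trans (Real.exp_le_exp.2 ?_)⟩
    exact Real.rpow_le_rpow (abs_nonneg _) h5 (by norm_num)
  exact_mod_cast Set.ncard_le_ncard this hfin

theorem count_hall (C A : ℝ) (hC : 0 < C) (hA : 2 ≤ A) (ε : ℝ) (hε : 0 < ε) : ∃ M : ℝ, ∀ X : ℝ, 1 ≤ X →
    {k : ℤ | (k ≠ 0 ∧ ¬ HallUpTo C A k) ∧ |(k : ℝ)| ≤ X}.Finite ∧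
      ({k : ℤ | (k ≠ 0 ∧ ¬ HallUpTo C A k) ∧ |(k : ℝ)| ≤ X}.ncard : ℝ) ≤ M * X ^ (A / 4 + 1 / 6 + ε) := by
  obtain ⟨M, hM⟩ := Pool.Agent.Results.MP_f2148a_nt.SparseViolations.result C A ε hC hA hε
  refine ⟨M, fun X hX => ⟨fin_aux X _, le_trans ?_ (hM X hX)⟩⟩
  have hfin : {k : ℤ | k ≠ 0 ∧ |(k : ℝ)| ≤ X ∧ ∃ x y : ℤ, y ^ 2 = x ^ 3 + k ∧
      C * |(k : ℝ)| ^ 3 < max |(x : ℝ)| |(y : ℝ)| ∧ |(x : ℝ)| ≤ X ^ A}.Finite :=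
    (fin_aux X (fun _ => True)).subset fun k hk => ⟨trivial, hk.2.1⟩
  have : {k : ℤ | (k ≠ 0 ∧ ¬ HallUpTo C A k) ∧ |(k : ℝ)| ≤ X} ⊆
      {k : ℤ | k ≠ 0 ∧ |(k : ℝ)| ≤ X ∧ ∃ x y : ℤ, y ^ 2 = x ^ 3 + k ∧
      C * |(k : ℝ)| ^ 3 < max |(x : ℝ)| |(y : ℝ)| ∧ |(x : ℝ)| ≤ X ^ A} := by
    rintro k ⟨⟨h3, h2⟩, h5⟩
    unfold HallUpTo at h2
    push Not at h2
    obtain ⟨x, y, e1, e2, e3⟩ := h2
    exact ⟨h3, h5, x, y, e1, e3, e2.trans (Real.rpow_le_rpow (abs_nonneg _) h5 (by linarith))⟩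
  exact_mod_cast Set.ncard_le_ncard this hfin

/-- every constant at once -/
theorem hall_all {A : ℝ} {P : ℤ → Prop} (h : ∀ j : ℕ, ∀ k : ℤ, P k → HallUpTo (1 / ((j : ℝ) + 1)) A k) (C : ℝ)
    (hC : 0 < C) (k : ℤ) (hk : P k) : HallUpTo C A k := by
  obtain ⟨j, hj⟩ := exists_nat_one_div_lt hC
  exact (h j k hk).mono hj.le

end Pool.Agent.L7h23.HK
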