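import Pool.Agent.H820R3.DG.Quad

/-!
# Weighted sums of pairs of digits of a quadratic irrational

For every set `S` of places below `n` the sum over `i + j ≤ n` of `x_i x_j w_S (i + j)`, where
`w_S m = ∑_{R ∈ S, R < m} b^(R - m)`, is at least `τ |S| - ε n - D (K n + 1)`.
-/

set_option autoImplicit false
set_option linter.unusedSectionVars false

open Finset

namespace Pool.Agent.L7h23.Master

open Pool.Agent.H394R2.Ones Pool.Agent.H820R3.DG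

/-- `w_S m = ∑_{R ∈ S, R < m} b^(R - m)` -/
noncomputable def wt (b : ℕ) (S : Finset ℕ) (m : ℕ) : ℝ :=
  ∑ R ∈ S.filter (fun R => R < m), 1 / (b : ℝ) ^ (m - R)

/-- the sum of `c_i c_j ω (i + j)` over `i, j ≥ 1`, `i + j ≤ n` -/
noncomputable def pairSum (c ω : ℕ → ℝ) (n : ℕ) : ℝ :=
  ∑ i ∈ Icc 1 n, ∑ j ∈ Icc 1 (n - i), c i * c j * ω (i + j)

lemma wt_nonneg (b : ℕ) (S : Finset ℕ) (m : ℕ) : 0 ≤ wt b S m :=
  sum_nonneg fun _ _ => by positivity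

section
variable {b : ℕ} {y : ℝ}

lemma geo (hb : 2 ≤ b) (n : ℕ) :
    ((b : ℝ) - 1) * ∑ R ∈ range n, 1 / (b : ℝ) ^ (n - R) = 1 - 1 / (b : ℝ) ^ n := by
  have hb0 : (b : ℝ) ≠ 0 := by positivity
  induction n with
  | zero => simp
  | succ n ih =>
    rw [sum_range_succ]
    have h1 : ∑ R ∈ range n, 1 / (b : ℝ) ^ (n + 1 - R) =
        (1 / (b : ℝ)) * ∑ R ∈ range n, 1 / (b : ℝ) ^ (n - R) := by
      rw [mul_sum]
      refine sum_congr rfl fun R hR => ?_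
      have : R ≤ n := by have := mem_range.1 hR; omega
      rw [Nat.succ_sub this, pow_succ]
      field_simp
    rw [h1, show n + 1 - n = 1 by omega, pow_one, pow_succ]
    have h2 : ((b : ℝ) - 1) * (1 / (b : ℝ) * ∑ R ∈ range n, 1 / (b : ℝ) ^ (n - R) + 1 / (b : ℝ)) =
        (1 / (b : ℝ)) * (((b : ℝ) - 1) * ∑ R ∈ range n, 1 / (b : ℝ) ^ (n - R)) +
          ((b : ℝ) - 1) / b := by ring
    rw [h2, ih]
    field_simp
    ring

lemma geo_le (hb : 2 ≤ b) (n : ℕ) :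
    ∑ R ∈ range n, 1 / (b : ℝ) ^ (n - R) ≤ 1 / ((b : ℝ) - 1) := by
  have hbR : (2 : ℝ) ≤ b := by exact_mod_cast hb
  rw [le_div_iff₀ (by linarith), mul_comm, geo hb]
  have : 0 < 1 / (b : ℝ) ^ n := by positivity
  linarith

lemma wt_le (hb : 2 ≤ b) (S : Finset ℕ) (m : ℕ) : wt b S m ≤ 1 / ((b : ℝ) - 1) := by
  refine le_trans ?_ (geo_le hb m)
  unfold wt
  refine sum_le_sum_of_subset_of_nonneg ?_ fun _ _ _ => by positivity
  intro R hR
  exact mem_range.2 (mem_filter.1 hR).2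

lemma T_tail (hb : 2 ≤ b) (hy0 : 0 < y) (hy1 : y < 1) {R n : ℕ} (h : R ≤ n) :
    T b y R = ∑ m ∈ Ioc R n, (r b y m : ℝ) * (1 / (b : ℝ) ^ (m - R)) +
      T b y n * (1 / (b : ℝ) ^ (n - R)) := by
  have hb0 : (b : ℝ) ≠ 0 := by positivity
  induction n, h using Nat.le_induction with
  | base => simp
  | succ n hn ih =>
    rw [sum_Ioc_succ_top hn, ih, T_succ hb hy0 hy1]
    have e : (n + 1) - R = (n - R) + 1 := by omega
    rw [e, pow_succ]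
    field_simp
    ring

/-- summing over a set of places -/
lemma swap (hb : 2 ≤ b) (hy0 : 0 < y) (hy1 : y < 1) {n : ℕ} {S : Finset ℕ} (hS : S ⊆ range n) :
    ∑ R ∈ S, T b y R = ∑ m ∈ range (n + 1), (r b y m : ℝ) * wt b S m +
      T b y n * ∑ R ∈ S, 1 / (b : ℝ) ^ (n - R) := by
  have h1 : ∀ R ∈ S, T b y R = ∑ m ∈ range (n + 1),
      (if R < m then (r b y m : ℝ) * (1 / (b : ℝ) ^ (m - R)) else 0) +
      T b y n * (1 / (b : ℝ) ^ (n - R)) := by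
    intro R hR
    rw [T_tail hb hy0 hy1 (mem_range.1 (hS hR)).le, ← sum_filter]
    congr 1
    refine sum_congr ?_ fun _ _ => rfl
    ext m
    simp only [mem_Ioc, mem_filter, mem_range]
    omega
  rw [sum_congr rfl h1, sum_add_distrib, mul_sum, sum_comm]
  congr 1
  refine sum_congr rfl fun m _ => ?_
  rw [← sum_filter]
  unfold wt
  rw [mul_sum]

lemma r_pairs (hy0 : 0 < y) (hy1 : y < 1) (ω : ℕ → ℝ) (n : ℕ) :
    ∑ m ∈ range (n + 1), (r b y m : ℝ) * ω m = pairSum (fun k => (x b y k : ℝ)) ω n := by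
  have h1 : ∀ m ∈ range (n + 1), (r b y m : ℝ) * ω m =
      ∑ k ∈ range (m + 1), (x b y k : ℝ) * x b y (m - k) * ω (k + (m - k)) := by
    intro m _
    unfold r
    rw [Nat.sum_antidiagonal_eq_sum_range_succ_mk]
    push_cast
    rw [sum_mul]
    refine sum_congr rfl fun k hk => ?_
    have : k + (m - k) = m := by have := mem_range.1 hk; omega
    simp only [this]
  have h0 := sum_range_diag_flip (n + 1) (fun i j => (x b y i : ℝ) * x b y j * ω (i + j))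
  rw [sum_congr rfl h1, h0]
  unfold pairSum
  rw [sum_range_succ']
  have h2 : ∑ j ∈ range (n + 1 - 0), (x b y 0 : ℝ) * x b y j * ω (0 + j) = 0 :=
    sum_eq_zero fun j _ => by simp [x_zero hy0 hy1]
  simp only [h2, add_zero]
  have e : Icc 1 n = Ico 1 (n + 1) := by ext k; simp only [mem_Icc, mem_Ico]; omega
  rw [e, sum_Ico_eq_sum_range]
  refine sum_congr rfl fun i hi => ?_
  have hi' := mem_range.1 hi
  have e2 : n + 1 - (i + 1) = n - i := by omega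
  rw [e2, Nat.add_comm 1 i]
  rcases Nat.eq_zero_or_pos (n - i) with h0 | h0
  · rw [h0]
    have : n - (i + 1) = 0 := by omega
    rw [this]
    simp
  · obtain ⟨k, hk⟩ : ∃ k, n - i = k + 1 := ⟨n - i - 1, by omega⟩
    have e3 : n - (i + 1) = k := by omega
    rw [hk, e3, sum_range_succ']
    have e4 : Icc 1 k = Ico 1 (k + 1) := by ext k; simp only [mem_Icc, mem_Ico]; omega
    rw [e4, sum_Ico_eq_sum_range]
    simp only [x_zero hy0 hy1, Nat.cast_zero, mul_zero, zero_mul, add_zero, Nat.add_sub_cancel]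
    refine sum_congr rfl fun j _ => ?_
    rw [Nat.add_comm 1 j]

lemma K_eq (hy0 : 0 < y) (hy1 : y < 1) (n : ℕ) : (K b y n : ℝ) = ∑ k ∈ Icc 1 n, (x b y k : ℝ) := by
  unfold K
  push_cast
  rw [sum_range_succ', x_zero hy0 hy1, Nat.cast_zero, add_zero]
  have e : Icc 1 n = Ico 1 (n + 1) := by ext k; simp only [mem_Icc, mem_Ico]; omega
  rw [e, sum_Ico_eq_sum_range, Nat.add_sub_cancel]
  refine sum_congr rfl fun j _ => ?_
  rw [Nat.add_comm 1 j]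

/-- the deficiency is small -/
lemma def_sum (hb : 2 ≤ b) (hy0 : 0 < y) (hy1 : y < 1) (hirr : Irrational y) {A B C : ℤ}
    (hA : 0 < A) (hq : (A : ℝ) * y ^ 2 + B * y + C = 0) (τ : ℝ) (hτ0 : 0 ≤ τ) (δ : ℝ)
    (hδ0 : 0 < δ) (hδ1 : δ ≤ 1 / 4) :
    ∃ C2 : ℝ, 0 ≤ C2 ∧ ∀ n : ℕ,
      ∑ m ∈ range n, dd b y τ |(B : ℝ)| m ≤ C2 * (K b y n + 1) + τ * δ * n := by
  have halg : IsAlgebraic ℚ y := by
    refine ⟨Polynomial.C (A : ℚ) * Polynomial.X ^ 2 + Polynomial.C (B : ℚ) * Polynomial.X +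
      Polynomial.C (C : ℚ), ?_, ?_⟩
    · intro h
      have h1 := congrArg (fun p => Polynomial.coeff p 2) h
      simp only [Polynomial.coeff_add, Polynomial.coeff_C_mul, Polynomial.coeff_X_pow,
        Polynomial.coeff_X, Polynomial.coeff_C, Polynomial.coeff_zero] at h1
      norm_num at h1
      omega
    · simp only [map_add, map_mul, map_pow, Polynomial.aeval_X, Polynomial.aeval_C]
      simpa using hq
  obtain ⟨C1, hC10, hC1⟩ := bad_count hb hy0 hy1 halg hirr |(B : ℝ)| δ hδ0 hδ1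
  have hB0 : 0 ≤ |(B : ℝ)| := abs_nonneg _
  refine ⟨|(B : ℝ)| + 2 * τ + τ * C1 + τ, by positivity, fun n => ?_⟩
  have hK : (0 : ℝ) ≤ K b y n := Nat.cast_nonneg _
  unfold dd
  rw [sum_add_distrib, sum_add_distrib, sum_add_distrib, ← mul_sum, ← mul_sum, ← mul_sum,
    sum_add_distrib]
  have h1 := ep_sum (b := b) hb hy0 hy1 n
  have h2 : (∑ m ∈ range n, (x b y m : ℝ)) ≤ K b y n := by
    unfold K
    exact_mod_cast sum_le_sum_of_subset (range_mono (Nat.le_succ n))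
  have h3 : (∑ m ∈ range n, (exc b y m : ℝ)) ≤ K b y n := by
    exact_mod_cast exc_sum b y n
  have h4 : (∑ m ∈ range n, (if T b y m ≤ |(B : ℝ)| * ep b y m then (1 : ℝ) else 0)) ≤
      C1 * (K b y n + 1) + δ * n := by
    have h5 := hC1 n
    rw [card_filter] at h5
    push_cast at h5
    exact h5
  have h5 := few_sum 0 n τ hτ0
  rw [Nat.cast_zero, zero_add, mul_one] at h5
  have h6 := mul_le_mul_of_nonneg_left h1 hB0
  have h7 := mul_le_mul_of_nonneg_left (add_le_add h2 h3) hτ0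
  have h8 := mul_le_mul_of_nonneg_left h4 hτ0
  have h9 : 0 ≤ τ * K b y n := mul_nonneg hτ0 hK
  have e : (|(B : ℝ)| + 2 * τ + τ * C1 + τ) * ((K b y n : ℝ) + 1) =
      |(B : ℝ)| * (K b y n + 1) + 2 * (τ * K b y n) + 2 * τ +
      τ * (C1 * (K b y n + 1)) + τ * K b y n + τ := by ring
  rw [e]
  linarith

/-- the master inequality in `(0, 1)` -/
theorem master (hb : 2 ≤ b) (hy0 : 0 < y) (hy1 : y < 1) (hirr : Irrational y) {A B C : ℤ}
    (hA : 0 < A) (hq : (A : ℝ) * y ^ 2 + B * y + C = 0) (ε : ℝ) (hε : 0 < ε) :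
    ∃ D : ℝ, 0 ≤ D ∧ ∀ n : ℕ, ∀ S ⊆ range n,
      (((Int.gcd b (2 * A) : ℕ) : ℝ) / A) * S.card ≤
        pairSum (fun k => (x b y k : ℝ)) (wt b S) n + ε * n +
          D * (∑ k ∈ Icc 1 n, (x b y k : ℝ) + 1) := by
  have hbR : (2 : ℝ) ≤ b := by exact_mod_cast hb
  have hAR : (1 : ℝ) ≤ A := by exact_mod_cast hA
  set τ : ℝ := ((Int.gcd b (2 * A) : ℕ) : ℝ) / A with hτ
  have hτ0 : 0 ≤ τ := by positivity
  set δ : ℝ := min (1 / 4) (ε / (τ + 1)) with hδ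
  have hδ0 : 0 < δ := by positivity
  have hδ1 : δ ≤ 1 / 4 := min_le_left _ _
  have hδ2 : τ * δ ≤ ε := by
    have h1 : δ ≤ ε / (τ + 1) := min_le_right _ _
    rw [le_div_iff₀ (by positivity)] at h1
    nlinarith
  obtain ⟨C2, hC20, hC2⟩ := def_sum hb hy0 hy1 hirr hA hq τ hτ0 δ hδ0 hδ1
  refine ⟨C2 + 1, by linarith, fun n S hS => ?_⟩
  have hB0 : 0 ≤ |(B : ℝ)| := abs_nonneg _
  have hn0 : (0 : ℝ) ≤ n := Nat.cast_nonneg _
  have h1 : ∑ R ∈ S, (τ - dd b y τ |(B : ℝ)| R) ≤ ∑ R ∈ S, T b y R :=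
    sum_le_sum fun R _ => T_lower' hb hy0 hy1 hirr hA hq R
  rw [sum_sub_distrib, sum_const, nsmul_eq_mul] at h1
  have h2 : ∑ R ∈ S, dd b y τ |(B : ℝ)| R ≤ ∑ R ∈ range n, dd b y τ |(B : ℝ)| R :=
    sum_le_sum_of_subset_of_nonneg hS fun R _ _ => dd_nonneg hy0 hτ0 hB0 R
  have h3 := hC2 n
  have h4 := swap hb hy0 hy1 hS
  rw [r_pairs hy0 hy1] at h4
  have h5 := T_le hb hy0 hy1 n
  have h6 : ∑ R ∈ S, 1 / (b : ℝ) ^ (n - R) ≤ 1 := by
    refine (sum_le_sum_of_subset_of_nonneg hS fun _ _ _ => by positivity).trans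
      ((geo_le hb n).trans ?_)
    rw [div_le_one (by linarith)]
    linarith
  have h7 : 0 ≤ ∑ R ∈ S, 1 / (b : ℝ) ^ (n - R) := sum_nonneg fun _ _ => by positivity
  have hT0 := (T_pos hb hy0 hy1 hirr n).le
  have h8 : T b y n * ∑ R ∈ S, 1 / (b : ℝ) ^ (n - R) ≤ K b y n + 1 := by
    calc T b y n * ∑ R ∈ S, 1 / (b : ℝ) ^ (n - R) ≤ T b y n * 1 :=
          mul_le_mul_of_nonneg_left h6 hT0
      _ ≤ _ := by linarith
  rw [← K_eq hy0 hy1]
  have h9 : τ * δ * n ≤ ε * n := mul_le_mul_of_nonneg_right hδ2 hn0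
  nlinarith

end

/-- the master property of a sequence -/
def Master (b : ℕ) (c : ℕ → ℝ) (τ : ℝ) : Prop :=
  ∀ ε : ℝ, 0 < ε → ∃ D : ℝ, 0 ≤ D ∧ ∀ n : ℕ, ∀ S ⊆ range n,
    τ * S.card ≤ pairSum c (wt b S) n + ε * n + D * (∑ k ∈ Icc 1 n, c k + 1)

/-- real quadratic irrationals -/
theorem master_real {b : ℕ} (hb : 2 ≤ b) {A B C : ℤ} (hA : 0 < A) {ξ : ℝ} (hirr : Irrational ξ)
    (hq : (A : ℝ) * ξ ^ 2 + B * ξ + C = 0) :
    Master b (fun k => ((⌊ξ * (b : ℝ) ^ k⌋ % (b : ℤ) : ℤ) : ℝ))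
      (((Int.gcd b (2 * A) : ℕ) : ℝ) / A) := by
  set y : ℝ := Int.fract ξ with hy
  have hξ : ξ = ⌊ξ⌋ + y := (Int.floor_add_fract ξ).symm
  have hyirr : Irrational y := by
    have : y = ξ - (⌊ξ⌋ : ℤ) := rfl
    rw [this]
    exact hirr.sub_intCast _
  have hy0 : 0 < y := lt_of_le_of_ne (Int.fract_nonneg ξ) (Ne.symm hyirr.ne_zero)
  have hy1 : y < 1 := Int.fract_lt_one ξ
  have hq' : (A : ℝ) * y ^ 2 + ((B + 2 * A * ⌊ξ⌋ : ℤ) : ℝ) * y +
      ((C + B * ⌊ξ⌋ + A * ⌊ξ⌋ ^ 2 : ℤ) : ℝ) = 0 := by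
    have h1 : (A : ℝ) * (⌊ξ⌋ + y) ^ 2 + B * (⌊ξ⌋ + y) + C = 0 := by rw [← hξ]; exact hq
    push_cast
    linarith
  have hdig : ∀ k : ℕ, 1 ≤ k →
      ((⌊ξ * (b : ℝ) ^ k⌋ % (b : ℤ) : ℤ) : ℝ) = (x b y k : ℝ) := by
    intro k hk
    obtain ⟨l, rfl⟩ : ∃ l, k = l + 1 := ⟨k - 1, by omega⟩
    have h1 : ξ * (b : ℝ) ^ (l + 1) = ((⌊ξ⌋ * (b : ℤ) ^ (l + 1) : ℤ) : ℝ) +
        y * (b : ℝ) ^ (l + 1) := by
      nth_rewrite 1 [hξ]
      push_cast
      ring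
    have h2 : ⌊ξ * (b : ℝ) ^ (l + 1)⌋ % (b : ℤ) = (x b y (l + 1) : ℤ) := by
      rw [h1, Int.floor_intCast_add]
      unfold x Pool.Agent.H394R2.Ones.B
      push_cast
      rw [Int.natCast_floor_eq_floor (by positivity)]
      rw [show ⌊ξ⌋ * (b : ℤ) ^ (l + 1) + ⌊y * (b : ℝ) ^ (l + 1)⌋ =
        ⌊y * (b : ℝ) ^ (l + 1)⌋ + (b : ℤ) * (⌊ξ⌋ * (b : ℤ) ^ l) by ring,
        Int.add_mul_emod_self_left]
    rw [h2]
    push_cast
    rfl
  intro ε hε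
  obtain ⟨D, hD0, hD⟩ := master hb hy0 hy1 hyirr hA hq' ε hε
  refine ⟨D, hD0, fun n S hS => ?_⟩
  have h1 := hD n S hS
  have h2 : ∑ k ∈ Icc 1 n, ((⌊ξ * (b : ℝ) ^ k⌋ % (b : ℤ) : ℤ) : ℝ) =
      ∑ k ∈ Icc 1 n, (x b y k : ℝ) := sum_congr rfl fun k hk => hdig k (mem_Icc.1 hk).1
  have h3 : pairSum (fun k => ((⌊ξ * (b : ℝ) ^ k⌋ % (b : ℤ) : ℤ) : ℝ)) (wt b S) n =
      pairSum (fun k => (x b y k : ℝ)) (wt b S) n := by
    unfold pairSum
    refine sum_congr rfl fun i hi => sum_congr rfl fun j hj => ?_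
    simp only [hdig i (mem_Icc.1 hi).1, hdig j (mem_Icc.1 hj).1]
  rw [h2, h3]
  exact h1

end Pool.Agent.L7h23.Master
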