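import Pool.Agent.L7h23.Master

/-!
# Consequences of the inequality for weighted sums of pairs of digits
-/

set_option autoImplicit false
set_option linter.unusedSectionVars false

open Finset

namespace Pool.Agent.L7h23.Master

/-- `c_1 + … + c_n` -/
noncomputable def N (c : ℕ → ℝ) (n : ℕ) : ℝ := ∑ k ∈ Icc 1 n, c k

/-- the sum of the `c_k` over the `k` in `[1, n]` with `k % q = r` -/
noncomputable def Nr (c : ℕ → ℝ) (q r n : ℕ) : ℝ := ∑ k ∈ (Icc 1 n).filter (fun k => k % q = r), c k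

/-- the exponent: the residue of `i - m` modulo `q` -/
def ex (q : ℕ) (i : ℤ) (m : ℕ) : ℕ := ((i - m) % (q : ℤ)).toNat

section
variable {b : ℕ} {c : ℕ → ℝ} {τ : ℝ}

lemma N_nonneg (hc0 : ∀ k, 0 ≤ c k) (n : ℕ) : 0 ≤ N c n := sum_nonneg fun k _ => hc0 k

lemma N_mono (hc0 : ∀ k, 0 ≤ c k) {m n : ℕ} (h : m ≤ n) : N c m ≤ N c n :=
  sum_le_sum_of_subset_of_nonneg (Icc_subset_Icc le_rfl h) fun k _ _ => hc0 k

lemma N_le (hc0 : ∀ k, 0 ≤ c k) {M : ℝ} (hc1 : ∀ k, c k ≤ M) (n : ℕ) : N c n ≤ M * n := by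
  unfold N
  calc ∑ k ∈ Icc 1 n, c k ≤ ∑ k ∈ Icc 1 n, M := sum_le_sum fun k _ => hc1 k
    _ = M * n := by simp [mul_comm]

lemma N_sub (hc0 : ∀ k, 0 ≤ c k) {M : ℝ} (hc1 : ∀ k, c k ≤ M) (n i : ℕ) :
    N c n - M * i ≤ N c (n - i) := by
  have hM : 0 ≤ M := (hc0 0).trans (hc1 0)
  induction i with
  | zero => simp
  | succ i ih =>
    have h1 : N c (n - i) ≤ N c (n - (i + 1)) + M := by
      rcases Nat.eq_zero_or_pos (n - i) with h | h
      · have : n - (i + 1) = 0 := by omega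
        rw [h, this]
        linarith
      · have e : n - i = (n - (i + 1)) + 1 := by omega
        rw [e]
        unfold N
        rw [sum_Icc_succ_top (by omega)]
        have := hc1 (n - (i + 1) + 1)
        linarith
    push_cast
    linarith

lemma pairSum_mono (hc0 : ∀ k, 0 ≤ c k) {ω ω' : ℕ → ℝ} (h : ∀ m, ω m ≤ ω' m) (n : ℕ) :
    pairSum c ω n ≤ pairSum c ω' n := by
  unfold pairSum
  exact sum_le_sum fun i _ => sum_le_sum fun j _ =>
    mul_le_mul_of_nonneg_left (h _) (mul_nonneg (hc0 _) (hc0 _))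

lemma pairSum_mono' (hc0 : ∀ k, 0 ≤ c k) {ω ω' : ℕ → ℝ} (n : ℕ) (h : ∀ m, m ≤ n → ω m ≤ ω' m) :
    pairSum c ω n ≤ pairSum c ω' n := by
  unfold pairSum
  refine sum_le_sum fun i hi => sum_le_sum fun j hj =>
    mul_le_mul_of_nonneg_left (h _ ?_) (mul_nonneg (hc0 _) (hc0 _))
  have := mem_Icc.1 hi
  have := mem_Icc.1 hj
  omega

lemma pairSum_smul (a : ℝ) (ω : ℕ → ℝ) (n : ℕ) :
    pairSum c (fun m => a * ω m) n = a * pairSum c ω n := by
  unfold pairSum
  rw [mul_sum]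
  refine sum_congr rfl fun i _ => ?_
  rw [mul_sum]
  exact sum_congr rfl fun j _ => by ring

lemma pairSum_add (ω ω' : ℕ → ℝ) (n : ℕ) :
    pairSum c (fun m => ω m + ω' m) n = pairSum c ω n + pairSum c ω' n := by
  unfold pairSum
  rw [← sum_add_distrib]
  refine sum_congr rfl fun i _ => ?_
  rw [← sum_add_distrib]
  exact sum_congr rfl fun j _ => by ring

lemma pairSum_one (n : ℕ) : pairSum c (fun _ => 1) n = ∑ i ∈ Icc 1 n, c i * N c (n - i) := by
  unfold pairSum N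
  refine sum_congr rfl fun i _ => ?_
  rw [mul_sum]
  exact sum_congr rfl fun j _ => by ring

/-- the full square -/
lemma pairSum_le_full (hc0 : ∀ k, 0 ≤ c k) (g : ℕ → ℕ → ℝ) (ω : ℕ → ℝ) (n : ℕ)
    (h : ∀ i j, 1 ≤ i → 1 ≤ j → i + j ≤ n → ω (i + j) ≤ g i j)
    (hg : ∀ i j, 0 ≤ g i j) :
    pairSum c ω n ≤ ∑ i ∈ Icc 1 n, ∑ j ∈ Icc 1 n, c i * c j * g i j := by
  unfold pairSum
  refine sum_le_sum fun i hi => ?_
  calc ∑ j ∈ Icc 1 (n - i), c i * c j * ω (i + j) ≤ ∑ j ∈ Icc 1 (n - i), c i * c j * g i j := by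
        refine sum_le_sum fun j hj => mul_le_mul_of_nonneg_left ?_ (mul_nonneg (hc0 _) (hc0 _))
        have h1 := mem_Icc.1 hi
        have h2 := mem_Icc.1 hj
        exact h i j h1.1 h2.1 (by omega)
    _ ≤ ∑ j ∈ Icc 1 n, c i * c j * g i j :=
        sum_le_sum_of_subset_of_nonneg (Icc_subset_Icc le_rfl (Nat.sub_le _ _)) fun j _ _ =>
          mul_nonneg (mul_nonneg (hc0 _) (hc0 _)) (hg _ _)

/-- a linear term is absorbed by the pairs -/
lemma absorb (hc0 : ∀ k, 0 ≤ c k) {M : ℝ} (hc1 : ∀ k, c k ≤ M)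
    (hinf : ∀ X : ℝ, ∃ L : ℕ, X ≤ N c L) {D : ℝ} (hD : 0 ≤ D) {η : ℝ} (hη : 0 < η) :
    ∃ E : ℝ, 0 ≤ E ∧ ∀ n : ℕ, D * (N c n + 1) ≤ η * pairSum c (fun _ => 1) n + E := by
  have hM : 0 ≤ M := (hc0 0).trans (hc1 0)
  obtain ⟨L, hL⟩ := hinf (D / η)
  rw [div_le_iff₀ hη] at hL
  have hNL := N_nonneg hc0 L
  have hp0 : ∀ n, 0 ≤ pairSum c (fun _ => 1) n := fun n =>
    sum_nonneg fun i _ => sum_nonneg fun j _ => by
      have := hc0 i; have := hc0 j; positivity
  refine ⟨D + D * (M * L) + η * (N c L * (M * L)), by positivity, fun n => ?_⟩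
  rcases Nat.lt_or_ge n L with hn | hn
  · have h1 : N c n ≤ M * L := (N_le hc0 hc1 n).trans
      (mul_le_mul_of_nonneg_left (by exact_mod_cast hn.le) hM)
    have h2 := hp0 n
    have h3 := mul_le_mul_of_nonneg_left h1 hD
    have h4 : 0 ≤ η * (N c L * (M * L)) := by positivity
    have h5 : 0 ≤ η * pairSum c (fun _ => 1) n := by positivity
    linarith
  · have h1 : N c L * (N c n - M * L) ≤ pairSum c (fun _ => 1) n := by
      rw [pairSum_one]
      calc N c L * (N c n - M * L) = ∑ i ∈ Icc 1 L, c i * (N c n - M * L) := by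
            unfold N; rw [sum_mul]
        _ ≤ ∑ i ∈ Icc 1 L, c i * N c (n - i) := by
            refine sum_le_sum fun i hi => mul_le_mul_of_nonneg_left ?_ (hc0 i)
            have h2 := N_sub hc0 hc1 n i
            have h3 : M * i ≤ M * L :=
              mul_le_mul_of_nonneg_left (by exact_mod_cast (mem_Icc.1 hi).2) hM
            linarith
        _ ≤ _ := sum_le_sum_of_subset_of_nonneg (Icc_subset_Icc le_rfl hn) fun i _ _ =>
            mul_nonneg (hc0 _) (N_nonneg hc0 _)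
    have h2 := mul_le_mul_of_nonneg_left h1 hη.le
    have h3 : D * N c n ≤ N c L * η * N c n := mul_le_mul_of_nonneg_right hL (N_nonneg hc0 n)
    have h4 : 0 ≤ D * (M * L) := by positivity
    nlinarith

/-! ### residue classes -/

lemma wt_zero (S : Finset ℕ) : wt b S 0 = 0 := by
  unfold wt
  rw [filter_false_of_mem (fun R _ => by omega), sum_empty]

lemma wt_succ (hb : 2 ≤ b) (S : Finset ℕ) (m : ℕ) :
    wt b S (m + 1) = (wt b S m + if m ∈ S then 1 else 0) / b := by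
  have hb0 : (b : ℝ) ≠ 0 := by positivity
  unfold wt
  have h1 : S.filter (fun R => R < m + 1) = S.filter (fun R => R < m) ∪ S.filter (fun R => R = m) := by
    ext R
    simp only [mem_filter, mem_union]
    constructor
    · rintro ⟨h1, h2⟩
      rcases Nat.lt_or_ge R m with h | h
      · exact Or.inl ⟨h1, h⟩
      · exact Or.inr ⟨h1, by omega⟩
    · rintro (⟨h1, h2⟩ | ⟨h1, h2⟩)
      · exact ⟨h1, by omega⟩
      · exact ⟨h1, by omega⟩
  rw [h1, sum_union]
  · have h2 : ∑ R ∈ S.filter (fun R => R < m), 1 / (b : ℝ) ^ (m + 1 - R) =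
        (∑ R ∈ S.filter (fun R => R < m), 1 / (b : ℝ) ^ (m - R)) / b := by
      rw [sum_div]
      refine sum_congr rfl fun R hR => ?_
      have : R < m := (mem_filter.1 hR).2
      have e : m + 1 - R = (m - R) + 1 := by omega
      rw [e, pow_succ]
      field_simp
    have h3 : ∑ R ∈ S.filter (fun R => R = m), 1 / (b : ℝ) ^ (m + 1 - R) =
        (if m ∈ S then 1 else 0) / b := by
      rw [sum_filter, sum_ite_eq']
      split_ifs
      · simp
      · simp
    rw [h2, h3]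
    ring
  · rw [disjoint_left]
    intro R hR hR'
    have h2 := (mem_filter.1 hR).2
    have h3 := (mem_filter.1 hR').2
    omega

lemma ex_lt {q : ℕ} (hq : 1 ≤ q) (i : ℤ) (m : ℕ) : ex q i m ≤ q - 1 := by
  unfold ex
  have h1 := Int.emod_lt_of_pos (i - m) (by exact_mod_cast hq : (0 : ℤ) < q)
  have h2 := Int.emod_nonneg (i - m) (by omega : (q : ℤ) ≠ 0)
  omega

lemma ex_succ {q : ℕ} (hq : 1 ≤ q) (i : ℤ) (m : ℕ) :
    (ex q i m = 0 ∧ ex q i (m + 1) = q - 1 ∧ ((m : ℤ) - i) % q = 0) ∨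
      (ex q i m = ex q i (m + 1) + 1 ∧ ((m : ℤ) - i) % q ≠ 0) := by
  have hq0 : (0 : ℤ) < q := by exact_mod_cast hq
  have h1 := Int.emod_lt_of_pos (i - m) hq0
  have h2 := Int.emod_nonneg (i - m) hq0.ne'
  have h3 := Int.emod_add_mul_ediv (i - m) q
  have hneg : ((m : ℤ) - i) % q = 0 ↔ (i - m) % q = 0 := by
    rw [← Int.dvd_iff_emod_eq_zero, ← Int.dvd_iff_emod_eq_zero, ← dvd_neg, neg_sub]
  by_cases h0 : (i - m) % (q : ℤ) = 0
  · left
    refine ⟨by unfold ex; rw [h0]; rfl, ?_, hneg.2 h0⟩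
    unfold ex
    have e : (i - ((m + 1 : ℕ) : ℤ)) % q = q - 1 := by
      have e1 : i - ((m + 1 : ℕ) : ℤ) = (q - 1) + q * ((i - m) / q - 1) := by
        push_cast
        rw [h0] at h3
        linarith
      rw [e1, Int.add_mul_emod_self_left]
      exact Int.emod_eq_of_lt (by omega) (by omega)
    rw [e]
    omega
  · right
    refine ⟨?_, fun h => h0 (hneg.1 h)⟩
    unfold ex
    have e : (i - ((m + 1 : ℕ) : ℤ)) % q = (i - m) % q - 1 := by
      have e1 : i - ((m + 1 : ℕ) : ℤ) = ((i - m) % q - 1) + q * ((i - m) / q) := by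
        push_cast
        linarith
      rw [e1, Int.add_mul_emod_self_left]
      exact Int.emod_eq_of_lt (by omega) (by omega)
    rw [e]
    omega

lemma pow_sub_one_pos (hb : 2 ≤ b) {q : ℕ} (hq : 1 ≤ q) : 0 < (b : ℝ) ^ q - 1 := by
  have hbR : (2 : ℝ) ≤ b := by exact_mod_cast hb
  have := one_lt_pow₀ (by linarith : (1 : ℝ) < b) (by omega : q ≠ 0)
  linarith

lemma wt_class (hb : 2 ≤ b) {q : ℕ} (hq : 1 ≤ q) (i : ℤ) (S : Finset ℕ)
    (hS : ∀ R ∈ S, ((R : ℤ) - i) % q = 0) (m : ℕ) :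
    wt b S m ≤ (b : ℝ) ^ (ex q i m) / ((b : ℝ) ^ q - 1) := by
  have hb0 : (0 : ℝ) < b := by positivity
  have hp := pow_sub_one_pos hb hq
  induction m with
  | zero => rw [wt_zero]; positivity
  | succ m ih =>
    rw [wt_succ hb, div_le_iff₀ hb0]
    rcases ex_succ hq i m with ⟨h1, h2, h3⟩ | ⟨h1, h2⟩
    · rw [h1, pow_zero] at ih
      rw [h2]
      have e : (b : ℝ) ^ (q - 1) / ((b : ℝ) ^ q - 1) * b = 1 / ((b : ℝ) ^ q - 1) + 1 := by
        have e1 : (b : ℝ) ^ (q - 1) * b = (b : ℝ) ^ q := by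
          rw [← pow_succ]; congr 1; omega
        rw [div_mul_eq_mul_div, e1]
        field_simp
        ring
      rw [e]
      split_ifs
      · linarith
      · linarith
    · have h4 : m ∉ S := fun h => h2 (hS m h)
      rw [if_neg h4, add_zero]
      refine ih.trans (le_of_eq ?_)
      rw [h1, pow_succ]
      ring

lemma class_card {q : ℕ} (hq : 1 ≤ q) (i : ℤ) (n : ℕ) :
    (n : ℝ) / q - 1 ≤ (((range n).filter fun R : ℕ => ((R : ℤ) - i) % q = 0).card : ℝ) := by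
  have hq0 : (0 : ℤ) < q := by exact_mod_cast hq
  set a : ℕ := (i % q).toNat with ha
  have h1 := Int.emod_lt_of_pos i hq0
  have h2 := Int.emod_nonneg i hq0.ne'
  have h3 := Int.emod_add_mul_ediv i q
  have haq : a < q := by omega
  have hai : (a : ℤ) = i % q := by omega
  have hsub : (range (n / q)).image (fun j => a + q * j) ⊆
      (range n).filter fun R : ℕ => ((R : ℤ) - i) % q = 0 := by
    intro R hR
    obtain ⟨j, hj, rfl⟩ := mem_image.1 hR
    have hj' := mem_range.1 hj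
    rw [mem_filter, mem_range]
    constructor
    · have h4 : q * (j + 1) ≤ q * (n / q) := Nat.mul_le_mul_left q (by omega)
      have h5 : q * (n / q) ≤ n := Nat.mul_div_le n q
      have h6 : q * (j + 1) = q * j + q := by ring
      omega
    · have e : (((a + q * j : ℕ) : ℤ) - i) = q * (j - i / q) := by
        push_cast
        rw [hai]
        linear_combination h3
      rw [e]
      exact Int.mul_emod_right _ _
  have hcard := card_le_card hsub
  rw [card_image_of_injective _ (fun j j' h => by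
    have h' : q * j = q * j' := by simpa using h
    exact Nat.eq_of_mul_eq_mul_left (by omega) h'), card_range] at hcard
  have h4 : (n : ℝ) / q - 1 ≤ ((n / q : ℕ) : ℝ) := by
    have hqR : (0 : ℝ) < q := by exact_mod_cast hq
    have h5 : n < q * (n / q + 1) := Nat.lt_mul_div_succ n (by omega)
    have h6 : (n : ℝ) < q * (((n / q : ℕ) : ℝ) + 1) := by exact_mod_cast h5
    rw [sub_le_iff_le_add, div_le_iff₀ hqR]
    linarith
  exact h4.trans (by exact_mod_cast hcard)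

/-- residue classes -/
theorem classes (hb : 2 ≤ b) (hc0 : ∀ k, 0 ≤ c k) {M : ℝ} (hc1 : ∀ k, c k ≤ M)
    (hinf : ∀ X : ℝ, ∃ L : ℕ, X ≤ N c L) (hτ : 0 ≤ τ) (hm : Master b c τ) {q : ℕ} (hq : 1 ≤ q)
    {ε : ℝ} (hε : 0 < ε) :
    ∃ n₀ : ℕ, ∀ n : ℕ, n₀ ≤ n → ∀ i : ℤ,
      ((b : ℝ) ^ q - 1) * ((τ / q - ε) * n) ≤ pairSum c (fun m => (b : ℝ) ^ (ex q i m)) n := by
  have hbR : (2 : ℝ) ≤ b := by exact_mod_cast hb
  have hp := pow_sub_one_pos hb hq
  have hqR : (1 : ℝ) ≤ q := by exact_mod_cast hq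
  set p : ℝ := (b : ℝ) ^ q - 1 with hpdef
  set ε₁ : ℝ := min 1 (ε / (3 * (τ + 1))) with hε₁
  have hε₁0 : 0 < ε₁ := by positivity
  have hε₁2 : ε₁ * (3 * (τ + 1)) ≤ ε := by
    rw [← le_div_iff₀ (by positivity)]; exact min_le_right _ _
  obtain ⟨D, hD0, hD⟩ := hm (ε / 3) (by positivity)
  obtain ⟨E, hE0, hE⟩ := absorb hc0 hc1 hinf hD0 (η := ε₁ / p) (by positivity)
  obtain ⟨n₁, hn₁⟩ := exists_nat_ge ((τ + E) * (3 / ε))
  refine ⟨n₁, fun n hn i => ?_⟩
  have hnR : (τ + E) * (3 / ε) ≤ n := hn₁.trans (by exact_mod_cast hn)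
  have hn0 : (0 : ℝ) ≤ n := Nat.cast_nonneg _
  set S := (range n).filter fun R : ℕ => ((R : ℤ) - i) % q = 0 with hS
  set P := pairSum c (fun m => (b : ℝ) ^ (ex q i m)) n with hP
  have h1 := hD n S (filter_subset _ _)
  have h2 : pairSum c (wt b S) n ≤ P / p := by
    refine (pairSum_mono hc0 (fun m => wt_class hb hq i S
      (fun R hR => (mem_filter.1 hR).2) m) n).trans (le_of_eq ?_)
    have e : (fun m => (b : ℝ) ^ ex q i m / ((b : ℝ) ^ q - 1)) =
        fun m => (1 / p) * (b : ℝ) ^ ex q i m := by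
      funext m; rw [hpdef]; ring
    rw [e, pairSum_smul, hP]
    ring
  have h3 := hE n
  have h4 : pairSum c (fun _ => 1) n ≤ P :=
    pairSum_mono hc0 (fun m => one_le_pow₀ (by linarith)) n
  have hP0 : 0 ≤ P := (sum_nonneg fun i _ => sum_nonneg fun j _ => by
    have := hc0 i; have := hc0 j; positivity)
  have h5 : τ * ((n : ℝ) / q - 1) ≤ τ * S.card :=
    mul_le_mul_of_nonneg_left (class_card hq i n) hτ
  have hsum : (∑ k ∈ Icc 1 n, c k) = N c n := rfl
  rw [hsum] at h1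
  have h6 : ε₁ / p * pairSum c (fun _ => 1) n ≤ ε₁ * (P / p) := by
    rw [div_mul_eq_mul_div, mul_div_assoc]
    exact mul_le_mul_of_nonneg_left (div_le_div_of_nonneg_right h4 hp.le) hε₁0.le
  set Q := P / p with hQ
  have hQ0 : 0 ≤ Q := by positivity
  have hPQ : P = p * Q := by rw [hQ]; field_simp
  have h7 : τ * ((n : ℝ) / q) - ε / 3 * n - (τ + E) ≤ (1 + ε₁) * Q := by nlinarith
  have h8 : (τ + E) ≤ ε / 3 * n := by
    have := mul_le_mul_of_nonneg_left hnR (by positivity : (0 : ℝ) ≤ ε / 3)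
    have e : ε / 3 * ((τ + E) * (3 / ε)) = τ + E := by field_simp
    linarith
  rw [hPQ]
  refine mul_le_mul_of_nonneg_left ?_ hp.le
  have hτq : τ / q ≤ τ := div_le_self hτ hqR
  have e9 : τ * ((n : ℝ) / q) = τ / q * n := by ring
  rw [e9] at h7
  have h9 : (τ / q - 2 * ε / 3) * n ≤ (1 + ε₁) * Q := by nlinarith
  by_contra hcon
  push Not at hcon
  have h10 : (1 + ε₁) * Q < (1 + ε₁) * ((τ / q - ε) * n) :=
    mul_lt_mul_of_pos_left hcon (by linarith)
  have h11 : (1 + ε₁) * ((τ / q - ε) * n) ≤ (τ / q - 2 * ε / 3) * n := by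
    have e : (1 + ε₁) * ((τ / q - ε) * n) = ((1 + ε₁) * (τ / q - ε)) * n := by ring
    rw [e]
    apply mul_le_mul_of_nonneg_right _ hn0
    have h12 : ε₁ * (τ / q) ≤ ε₁ * τ := mul_le_mul_of_nonneg_left hτq hε₁0.le
    have h13 : 0 ≤ ε₁ * ε := by positivity
    nlinarith
  linarith

/-- one class -/
theorem one_class (hb : 2 ≤ b) (hc0 : ∀ k, 0 ≤ c k) {M : ℝ} (hc1 : ∀ k, c k ≤ M)
    (hinf : ∀ X : ℝ, ∃ L : ℕ, X ≤ N c L) (hτ : 0 ≤ τ) (hm : Master b c τ) {q : ℕ} (hq : 1 ≤ q)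
    {ε : ℝ} (hε : 0 < ε) :
    ∃ n₀ : ℕ, ∀ n : ℕ, n₀ ≤ n → ∀ r : ℕ,
      ((b : ℝ) ^ q - 1) * ((τ / q - ε) * n) ≤
        (b : ℝ) ^ (q - 1) * N c n ^ 2 - ((b : ℝ) ^ (q - 1) - 1) * Nr c q r n ^ 2 := by
  have hbR : (2 : ℝ) ≤ b := by exact_mod_cast hb
  obtain ⟨n₀, hn₀⟩ := classes hb hc0 hc1 hinf hτ hm hq hε
  refine ⟨n₀, fun n hn r => (hn₀ n hn (2 * r)).trans ?_⟩
  set u : ℝ := (b : ℝ) ^ (q - 1) with hu
  have hu1 : 1 ≤ u := one_le_pow₀ (by linarith)
  have h1 : N c n ^ 2 = ∑ i ∈ Icc 1 n, ∑ j ∈ Icc 1 n, c i * c j := by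
    unfold N; rw [sq, sum_mul_sum]
  have h2 : Nr c q r n ^ 2 = ∑ i ∈ Icc 1 n, ∑ j ∈ Icc 1 n,
      c i * c j * (if i % q = r ∧ j % q = r then 1 else 0) := by
    unfold Nr
    rw [sq, sum_mul_sum, sum_filter]
    refine sum_congr rfl fun i _ => ?_
    split_ifs with hi
    · rw [sum_filter]
      refine sum_congr rfl fun j _ => ?_
      by_cases hj : j % q = r
      · rw [if_pos hj, if_pos ⟨hi, hj⟩, mul_one]
      · rw [if_neg hj, if_neg (fun h => hj h.2), mul_zero]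
    · symm
      refine sum_eq_zero fun j _ => ?_
      rw [if_neg (fun h => hi h.1), mul_zero]
  rw [h1, h2, mul_sum, mul_sum, ← sum_sub_distrib]
  have h3 : ∑ i ∈ Icc 1 n, (u * ∑ j ∈ Icc 1 n, c i * c j - (u - 1) * ∑ j ∈ Icc 1 n,
      c i * c j * (if i % q = r ∧ j % q = r then 1 else 0)) =
      ∑ i ∈ Icc 1 n, ∑ j ∈ Icc 1 n, c i * c j *
        (u - (u - 1) * (if i % q = r ∧ j % q = r then 1 else 0)) := by
    refine sum_congr rfl fun i _ => ?_
    rw [mul_sum, mul_sum, ← sum_sub_distrib]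
    exact sum_congr rfl fun j _ => by ring
  rw [h3]
  refine pairSum_le_full hc0 _ _ n (fun i j hi hj hij => ?_) (fun i j => ?_)
  · by_cases h : i % q = r ∧ j % q = r
    · rw [if_pos h]
      have he : ex q (2 * r) (i + j) = 0 := by
        unfold ex
        have e : ((2 * r : ℤ) - ((i + j : ℕ) : ℤ)) % q = 0 := by
          rw [← Int.dvd_iff_emod_eq_zero]
          have e1 : (i : ℤ) = r + q * (i / q : ℕ) := by
            have := Nat.mod_add_div i q
            rw [h.1] at this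
            exact_mod_cast this.symm
          have e2 : (j : ℤ) = r + q * (j / q : ℕ) := by
            have := Nat.mod_add_div j q
            rw [h.2] at this
            exact_mod_cast this.symm
          refine ⟨-((i / q : ℕ) : ℤ) - ((j / q : ℕ) : ℤ), ?_⟩
          push_cast at e1 e2 ⊢
          linear_combination -e1 - e2
        rw [e]; rfl
      simp only [he, pow_zero]
      linarith
    · rw [if_neg h, mul_zero, sub_zero]
      exact pow_le_pow_right₀ (by linarith) (ex_lt hq _ _)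
  · split_ifs
    · linarith
    · linarith

lemma N_split (n : ℕ) : N c n = Nr c 2 0 n + Nr c 2 1 n := by
  unfold N Nr
  rw [← sum_filter_add_sum_filter_not (Icc 1 n) (fun k => k % 2 = 0)]
  congr 1
  refine sum_congr ?_ fun _ _ => rfl
  ext k
  simp only [mem_filter]
  constructor
  · rintro ⟨h1, h2⟩; exact ⟨h1, by omega⟩
  · rintro ⟨h1, h2⟩; exact ⟨h1, by omega⟩

lemma two_sum (n : ℕ) (u v : ℝ) :
    ∑ i ∈ Icc 1 n, ∑ j ∈ Icc 1 n, c i * c j * (if (i + j) % 2 = 0 then u else v) =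
      u * (Nr c 2 0 n ^ 2 + Nr c 2 1 n ^ 2) + 2 * v * (Nr c 2 0 n * Nr c 2 1 n) := by
  have hin : ∀ i, ∑ j ∈ Icc 1 n, c i * c j * (if (i + j) % 2 = 0 then u else v) =
      c i * (if i % 2 = 0 then u * Nr c 2 0 n + v * Nr c 2 1 n
        else u * Nr c 2 1 n + v * Nr c 2 0 n) := by
    intro i
    have h1 : ∀ j ∈ Icc 1 n, c i * c j * (if (i + j) % 2 = 0 then u else v) =
        c i * ((if i % 2 = 0 then u else v) * (if j % 2 = 0 then c j else 0) +
          (if i % 2 = 0 then v else u) * (if j % 2 = 1 then c j else 0)) := by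
      intro j _
      by_cases hi : i % 2 = 0 <;> by_cases hj : j % 2 = 0
      · rw [if_pos (by omega), if_pos hi, if_pos hi, if_pos hj, if_neg (by omega)]; ring
      · rw [if_neg (by omega), if_pos hi, if_pos hi, if_neg hj, if_pos (by omega)]; ring
      · rw [if_neg (by omega), if_neg hi, if_neg hi, if_pos hj, if_neg (by omega)]; ring
      · rw [if_pos (by omega), if_neg hi, if_neg hi, if_neg hj, if_pos (by omega)]; ring
    rw [sum_congr rfl h1, ← mul_sum, sum_add_distrib, ← mul_sum, ← mul_sum, ← sum_filter,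
      ← sum_filter]
    congr 1
    unfold Nr
    split_ifs <;> ring
  simp only [hin]
  have h2 : ∀ i ∈ Icc 1 n, c i * (if i % 2 = 0 then u * Nr c 2 0 n + v * Nr c 2 1 n
        else u * Nr c 2 1 n + v * Nr c 2 0 n) =
      (u * Nr c 2 0 n + v * Nr c 2 1 n) * (if i % 2 = 0 then c i else 0) +
        (u * Nr c 2 1 n + v * Nr c 2 0 n) * (if i % 2 = 1 then c i else 0) := by
    intro i _
    by_cases hi : i % 2 = 0
    · rw [if_pos hi, if_pos hi, if_neg (by omega)]; ring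
    · rw [if_neg hi, if_neg hi, if_pos (by omega)]; ring
  rw [sum_congr rfl h2, sum_add_distrib, ← mul_sum, ← mul_sum, ← sum_filter, ← sum_filter]
  change (u * Nr c 2 0 n + v * Nr c 2 1 n) * Nr c 2 0 n +
    (u * Nr c 2 1 n + v * Nr c 2 0 n) * Nr c 2 1 n = _
  ring

/-- even and odd places -/
theorem even_odd (hb : 2 ≤ b) (hc0 : ∀ k, 0 ≤ c k) {M : ℝ} (hc1 : ∀ k, c k ≤ M)
    (hinf : ∀ X : ℝ, ∃ L : ℕ, X ≤ N c L) (hτ : 0 ≤ τ) (hm : Master b c τ)
    {ε : ℝ} (hε : 0 < ε) :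
    ∃ n₀ : ℕ, ∀ n : ℕ, n₀ ≤ n →
      ((b : ℝ) ^ 2 - 1) * ((τ / 2 - ε) * n) ≤
        Nr c 2 0 n ^ 2 + 2 * b * (Nr c 2 0 n * Nr c 2 1 n) + Nr c 2 1 n ^ 2 ∧
      ((b : ℝ) ^ 2 - 1) * ((τ / 2 - ε) * n) ≤
        b * (Nr c 2 0 n ^ 2 + Nr c 2 1 n ^ 2) + 2 * (Nr c 2 0 n * Nr c 2 1 n) := by
  have hbR : (2 : ℝ) ≤ b := by exact_mod_cast hb
  obtain ⟨n₀, hn₀⟩ := classes hb hc0 hc1 hinf hτ hm (q := 2) (by norm_num) hε
  have hex0 : ∀ m : ℕ, m % 2 = 0 → ex 2 0 m = 0 ∧ ex 2 1 m = 1 := by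
    intro m hm
    unfold ex
    constructor
    · omega
    · omega
  have hex1 : ∀ m : ℕ, m % 2 ≠ 0 → ex 2 0 m = 1 ∧ ex 2 1 m = 0 := by
    intro m hm
    unfold ex
    constructor
    · omega
    · omega
  refine ⟨n₀, fun n hn => ⟨?_, ?_⟩⟩
  · have h1 := hn₀ n hn 0
    push_cast at h1
    refine h1.trans ((pairSum_le_full hc0 (fun i j => if (i + j) % 2 = 0 then (1 : ℝ) else b) _ n
      (fun i j _ _ _ => ?_) (fun i j => ?_)).trans (le_of_eq ?_))
    · by_cases h : (i + j) % 2 = 0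
      · simp only [(hex0 _ h).1, h, if_true, pow_zero]; exact le_rfl
      · simp only [(hex1 _ h).1, h, if_false, pow_one]; exact le_rfl
    · split_ifs <;> linarith
    · rw [two_sum]; ring
  · have h1 := hn₀ n hn 1
    push_cast at h1
    refine h1.trans ((pairSum_le_full hc0 (fun i j => if (i + j) % 2 = 0 then (b : ℝ) else 1) _ n
      (fun i j _ _ _ => ?_) (fun i j => ?_)).trans (le_of_eq ?_))
    · by_cases h : (i + j) % 2 = 0
      · simp only [(hex0 _ h).2, h, if_true, pow_one]; exact le_rfl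
      · simp only [(hex1 _ h).2, h, if_false, pow_zero]; exact le_rfl
    · split_ifs <;> linarith
    · rw [two_sum]; ring

end

end Pool.Agent.L7h23.Master
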