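import Pool.Agent.L7h23.MasterWin

/-!
# The inequality without a linear loss, for the digits of square roots
-/

set_option autoImplicit false
set_option linter.unusedSectionVars false

open Finset

namespace Pool.Agent.L7h23.Master

open Pool.Agent.H394R2.Ones Pool.Agent.H820R3.DG

section
variable {b : ℕ} {y : ℝ}

/-- the inequality for `y` with `b^s y^2` an integer -/
theorem master0 (hb : 2 ≤ b) (hy0 : 0 < y) (hy1 : y < 1) (hirr : Irrational y) {s : ℕ}
    (hs : ∃ D : ℤ, y ^ 2 * (b : ℝ) ^ s = D) (n : ℕ) (S : Finset ℕ) (hS : S ⊆ range n) :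
    ((Nat.gcd b 2 : ℕ) : ℝ) * S.card ≤
      pairSum (fun k => (x b y k : ℝ)) (wt b S) n + 2 * K b y n + 2 * (s + 1) + 1 := by
  have hbR : (2 : ℝ) ≤ b := by exact_mod_cast hb
  have h1 : ∑ R ∈ S, (((Nat.gcd b 2 : ℕ) : ℝ) - (exc b y R + (if R ≤ s then 2 else 0))) ≤
      ∑ R ∈ S, T b y R := by
    refine sum_le_sum fun m _ => ?_
    have h0 : (0 : ℝ) ≤ exc b y m := Nat.cast_nonneg _
    by_cases hm : m ≤ s
    · rw [if_pos hm]
      have := T_pos hb hy0 hy1 hirr m
      have := gcd_le (b := b)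
      linarith
    · rw [if_neg hm]
      have := T_lower hb hy0 hy1 hirr hs (m := m) (by omega)
      linarith
  rw [sum_sub_distrib, sum_const, nsmul_eq_mul] at h1
  have h2 : ∑ R ∈ S, ((exc b y R : ℝ) + (if R ≤ s then 2 else 0)) ≤
      ∑ R ∈ range n, ((exc b y R : ℝ) + (if R ≤ s then 2 else 0)) :=
    sum_le_sum_of_subset_of_nonneg hS fun R _ _ => by
      have h0 : (0 : ℝ) ≤ exc b y R := Nat.cast_nonneg _
      split_ifs <;> linarith
  simp only [sum_add_distrib] at h1 h2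
  have h3 : (∑ m ∈ range n, (exc b y m : ℝ)) ≤ K b y n := by
    exact_mod_cast exc_sum b y n
  have h3' := few_sum s n 2 (by norm_num)
  have h4 := swap hb hy0 hy1 hS
  rw [r_pairs hy0 hy1] at h4
  have h5 := T_le hb hy0 hy1 n
  have h6 : ∑ R ∈ S, 1 / (b : ℝ) ^ (n - R) ≤ 1 := by
    refine (sum_le_sum_of_subset_of_nonneg hS fun _ _ _ => by positivity).trans
      ((geo_le hb n).trans ?_)
    rw [div_le_one (by linarith)]
    linarith
  have hT0 := (T_pos hb hy0 hy1 hirr n).le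
  have h8 : T b y n * ∑ R ∈ S, 1 / (b : ℝ) ^ (n - R) ≤ K b y n + 1 := by
    calc T b y n * ∑ R ∈ S, 1 / (b : ℝ) ^ (n - R) ≤ T b y n * 1 :=
          mul_le_mul_of_nonneg_left h6 hT0
      _ ≤ _ := by linarith
  linarith

end

lemma wt_shift (b t : ℕ) (S : Finset ℕ) (m : ℕ) :
    wt b (S.image (fun R => t + R)) (t + m) = wt b S m := by
  unfold wt
  have h1 : (S.image (fun R => t + R)).filter (fun R => R < t + m) =
      (S.filter (fun R => R < m)).image (fun R => t + R) := by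
    ext R
    simp only [mem_filter, mem_image]
    constructor
    · rintro ⟨⟨a, ha, rfl⟩, h⟩
      exact ⟨a, ⟨ha, by omega⟩, rfl⟩
    · rintro ⟨a, ⟨ha, h⟩, rfl⟩
      exact ⟨⟨a, ha, rfl⟩, by omega⟩
  rw [h1, sum_image (fun a _ a' _ h => by simpa using h)]
  refine sum_congr rfl fun R _ => ?_
  congr 2
  omega

/-- dropping the first `t` terms of a sequence -/
lemma shift {c : ℕ → ℝ} (hc0 : ∀ k, 0 ≤ c k) {ω : ℕ → ℝ} (hω0 : ∀ m, 0 ≤ ω m)
    (hω1 : ∀ m, ω m ≤ 1) (t n : ℕ) :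
    pairSum c ω (2 * t + n) ≤ pairSum (fun k => c (t + k)) (fun m => ω (2 * t + m)) n +
      2 * (N c t * N c (2 * t + n)) := by
  have hF : ∀ i j, 0 ≤ c i * c j * ω (i + j) := fun i j =>
    mul_nonneg (mul_nonneg (hc0 _) (hc0 _)) (hω0 _)
  have hF1 : ∀ i j, c i * c j * ω (i + j) ≤ c i * c j := fun i j =>
    mul_le_of_le_one_right (mul_nonneg (hc0 _) (hc0 _)) (hω1 _)
  unfold pairSum
  have e1 : Icc 1 (2 * t + n) = Icc 1 t ∪ Ioc t (2 * t + n) := by
    ext k; simp only [mem_Icc, mem_union, mem_Ioc]; omega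
  rw [e1, sum_union (by
    rw [disjoint_left]
    intro k hk hk'
    have := (mem_Icc.1 hk).2
    have := (mem_Ioc.1 hk').1
    omega)]
  have h1 : ∑ i ∈ Icc 1 t, ∑ j ∈ Icc 1 (2 * t + n - i), c i * c j * ω (i + j) ≤
      N c t * N c (2 * t + n) := by
    unfold N
    rw [sum_mul_sum]
    refine sum_le_sum fun i _ => ?_
    refine (sum_le_sum fun j _ => hF1 i j).trans ?_
    exact sum_le_sum_of_subset_of_nonneg (Icc_subset_Icc le_rfl (by omega)) fun j _ _ =>
      mul_nonneg (hc0 _) (hc0 _)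
  have h2 : ∀ i ∈ Ioc t (2 * t + n), ∑ j ∈ Icc 1 (2 * t + n - i), c i * c j * ω (i + j) ≤
      ∑ j ∈ Ioc t (2 * t + n - i), c i * c j * ω (i + j) + c i * N c t := by
    intro i _
    have h3 : ∑ j ∈ Icc 1 (2 * t + n - i), c i * c j * ω (i + j) ≤
        ∑ j ∈ Icc 1 t ∪ Ioc t (2 * t + n - i), c i * c j * ω (i + j) :=
      sum_le_sum_of_subset_of_nonneg (fun k hk => by
        simp only [mem_Icc, mem_union, mem_Ioc] at hk ⊢; omega) fun j _ _ => hF i j
    rw [sum_union (by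
      rw [disjoint_left]
      intro k hk hk'
      have := (mem_Icc.1 hk).2
      have := (mem_Ioc.1 hk').1
      omega)] at h3
    have h4 : ∑ j ∈ Icc 1 t, c i * c j * ω (i + j) ≤ c i * N c t := by
      unfold N
      rw [mul_sum]
      exact sum_le_sum fun j _ => hF1 i j
    linarith
  have h3 := sum_le_sum h2
  rw [sum_add_distrib, ← sum_mul] at h3
  have h4 : ∑ i ∈ Ioc t (2 * t + n), c i ≤ N c (2 * t + n) := by
    unfold N
    exact sum_le_sum_of_subset_of_nonneg (fun k hk => by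
      simp only [mem_Icc, mem_Ioc] at hk ⊢; omega) fun j _ _ => hc0 j
  have h5 := mul_le_mul_of_nonneg_right h4 (N_nonneg hc0 t)
  have h6 : ∑ i ∈ Ioc t (2 * t + n), ∑ j ∈ Ioc t (2 * t + n - i), c i * c j * ω (i + j) =
      ∑ i ∈ Icc 1 n, ∑ j ∈ Icc 1 (n - i), c (t + i) * c (t + j) * ω (2 * t + (i + j)) := by
    have e2 : ∀ M, Ioc t M = (Ioc 0 (M - t)).image (fun k => t + k) := by
      intro M
      ext k
      simp only [mem_Ioc, mem_image]
      constructor
      · rintro ⟨h1, h2⟩; exact ⟨k - t, by omega, by omega⟩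
      · rintro ⟨a, ha, rfl⟩; omega
    have hinj : ∀ M : Finset ℕ, Set.InjOn (fun k => t + k) (M : Set ℕ) :=
      fun M a _ a' _ h => by simpa using h
    rw [e2 (2 * t + n), sum_image (hinj _)]
    have h7 : ∀ i, ∑ j ∈ Ioc t (2 * t + n - (t + i)), c (t + i) * c j * ω (t + i + j) =
        ∑ j ∈ Icc 1 (n - i), c (t + i) * c (t + j) * ω (2 * t + (i + j)) := by
      intro i
      rw [e2, sum_image (hinj _)]
      refine sum_congr ?_ fun j _ => ?_
      · ext k; simp only [mem_Ioc, mem_Icc]; omega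
      · congr 2; omega
    simp only [h7]
    symm
    refine sum_subset_zero_on_sdiff (fun k hk => ?_) (fun i hi => ?_) (fun _ _ => rfl)
    · simp only [mem_Ioc, mem_Icc] at hk ⊢; omega
    · simp only [mem_sdiff, mem_Ioc, mem_Icc] at hi
      have : n - i = 0 := by omega
      rw [this]
      simp
  rw [h6] at h3
  linarith

/-- **Square roots**: no linear loss -/
theorem master_sqrt (d b : ℕ) (hd : ¬ IsSquare d) (hb : 2 ≤ b) :
    ∃ D : ℝ, 0 ≤ D ∧ ∀ n : ℕ, ∀ S ⊆ range n,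
      ((Nat.gcd b 2 : ℕ) : ℝ) * S.card ≤
        pairSum (fun k => ((⌊Real.sqrt d * (b : ℝ) ^ k⌋ % (b : ℤ) : ℤ) : ℝ)) (wt b S) n +
          D * (∑ k ∈ Icc 1 n, ((⌊Real.sqrt d * (b : ℝ) ^ k⌋ % (b : ℤ) : ℤ) : ℝ) + 1) := by
  have hbR : (2 : ℝ) ≤ b := by exact_mod_cast hb
  have hb0 : (0 : ℝ) < b := by linarith
  have hirr : Irrational (Real.sqrt d) := by
    rw [irrational_sqrt_natCast_iff]; exact hd
  have hd0 : 0 < d := by
    rcases Nat.eq_zero_or_pos d with h | h
    · exact absurd ⟨0, by simp [h]⟩ hd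
    · exact h
  have hsd : 0 < Real.sqrt d := Real.sqrt_pos.mpr (by exact_mod_cast hd0)
  set t := d with ht
  have hbt : Real.sqrt d < (b : ℝ) ^ t := by
    have h1 : Real.sqrt d ≤ d := by
      rw [Real.sqrt_le_left (Nat.cast_nonneg _)]
      have : (1 : ℝ) ≤ d := by exact_mod_cast hd0
      nlinarith
    have h2 : (d : ℝ) < (b : ℝ) ^ t := by
      have : d < b ^ d := Nat.lt_pow_self (by omega)
      exact_mod_cast this
    linarith
  set y : ℝ := Real.sqrt d / (b : ℝ) ^ t with hy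
  have hbt0 : (0 : ℝ) < (b : ℝ) ^ t := by positivity
  have hy0 : 0 < y := div_pos hsd hbt0
  have hy1 : y < 1 := by rw [hy, div_lt_one hbt0]; exact hbt
  have hyi : Irrational y := by
    rw [hy]
    have : Irrational (Real.sqrt d / ((b ^ t : ℕ) : ℝ)) := hirr.div_natCast (by positivity)
    exact_mod_cast this
  have hs : ∃ D : ℤ, y ^ 2 * (b : ℝ) ^ (2 * t) = D := by
    refine ⟨d, ?_⟩
    rw [hy, div_pow, Real.sq_sqrt (Nat.cast_nonneg _), mul_comm 2 t, pow_mul]
    field_simp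
    norm_cast
  have hdig : ∀ k, (x b y (t + k) : ℝ) = ((⌊Real.sqrt d * (b : ℝ) ^ k⌋ % (b : ℤ) : ℤ) : ℝ) := by
    intro k
    have h1 : (x b y (t + k) : ℤ) = ⌊Real.sqrt d * (b : ℝ) ^ k⌋ % (b : ℤ) := by
      unfold x Pool.Agent.H394R2.Ones.B
      push_cast
      rw [Int.natCast_floor_eq_floor (by positivity), hy, pow_add]
      congr 2
      field_simp
    rw [← h1]
    push_cast
    rfl
  set c : ℕ → ℝ := fun k => (x b y k : ℝ) with hc
  have hc0 : ∀ k, 0 ≤ c k := fun k => Nat.cast_nonneg _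
  have hc1 : ∀ k, c k ≤ b := fun k => by
    have h1 : x b y k < b := by unfold x; exact Nat.mod_lt _ (by omega)
    have h2 : (x b y k : ℝ) < b := by exact_mod_cast h1
    exact h2.le
  set H : ℝ := b * t with hH
  have hH0 : 0 ≤ H := by positivity
  -- digits
  have hN : ∀ n, N c (2 * t + n) ≤ ∑ k ∈ Icc 1 n, ((⌊Real.sqrt d * (b : ℝ) ^ k⌋ % (b : ℤ) : ℤ) : ℝ) +
      2 * H := by
    intro n
    have h1 : N c (2 * t + n) ≤ N c t + ∑ k ∈ Icc 1 (t + n), c (t + k) := by
      unfold N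
      have e2 : Icc 1 (2 * t + n) = Icc 1 t ∪ (Icc 1 (t + n)).image (fun k => t + k) := by
        ext k
        simp only [mem_Icc, mem_image, mem_union]
        constructor
        · rintro ⟨h1, h2⟩
          rcases Nat.lt_or_ge t k with h | h
          · exact Or.inr ⟨k - t, by omega, by omega⟩
          · exact Or.inl ⟨h1, h⟩
        · rintro (h | ⟨a, ha, rfl⟩)
          · omega
          · omega
      rw [e2, sum_union (by
        rw [disjoint_left]
        intro k hk hk'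
        have := (mem_Icc.1 hk).2
        obtain ⟨a, ha, rfl⟩ := mem_image.1 hk'
        have := (mem_Icc.1 ha).1
        omega), sum_image (fun a _ a' _ h => by simpa using h)]
    have h2 : ∑ k ∈ Icc 1 (t + n), c (t + k) ≤ ∑ k ∈ Icc 1 n, c (t + k) + H := by
      have h3 : ∑ k ∈ Icc 1 (t + n), c (t + k) = ∑ k ∈ Icc 1 n, c (t + k) +
          ∑ k ∈ Ioc n (t + n), c (t + k) := by
        rw [← sum_union (by
          rw [disjoint_left]
          intro k hk hk'
          have := (mem_Icc.1 hk).2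
          have := (mem_Ioc.1 hk').1
          omega)]
        refine sum_congr ?_ fun _ _ => rfl
        ext k; simp only [mem_Icc, mem_union, mem_Ioc]; omega
      have h4 : ∑ k ∈ Ioc n (t + n), c (t + k) ≤ H := by
        calc ∑ k ∈ Ioc n (t + n), c (t + k) ≤ ∑ k ∈ Ioc n (t + n), (b : ℝ) :=
              sum_le_sum fun k _ => hc1 _
          _ = H := by rw [sum_const, Nat.card_Ioc, nsmul_eq_mul, hH]; push_cast; simp; ring
      linarith
    have h3 : N c t ≤ H := N_le hc0 hc1 t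
    have h4 : ∑ k ∈ Icc 1 n, c (t + k) =
        ∑ k ∈ Icc 1 n, ((⌊Real.sqrt d * (b : ℝ) ^ k⌋ % (b : ℤ) : ℤ) : ℝ) :=
      sum_congr rfl fun k _ => hdig k
    linarith
  refine ⟨2 * H + 2 + (2 * H + 2) * (2 * H) + (4 * t + 3), by positivity, fun n S hS => ?_⟩
  set S' := S.image (fun R => 2 * t + R) with hS'
  have hS'n : S' ⊆ range (2 * t + n) := by
    intro R hR
    obtain ⟨a, ha, rfl⟩ := mem_image.1 hR
    have := mem_range.1 (hS ha)
    exact mem_range.2 (by omega)
  have hcard : S'.card = S.card :=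
    card_image_of_injective _ (fun a a' h => by simpa using h)
  have h1 := master0 hb hy0 hy1 hyi hs (2 * t + n) S' hS'n
  rw [hcard, K_eq hy0 hy1] at h1
  have h2 := shift hc0 (wt_nonneg b S') (fun m => (wt_le hb S' m).trans (by
    rw [div_le_one (by linarith)]; linarith)) t n
  have h3 : pairSum (fun k => c (t + k)) (fun m => wt b S' (2 * t + m)) n =
      pairSum (fun k => ((⌊Real.sqrt d * (b : ℝ) ^ k⌋ % (b : ℤ) : ℤ) : ℝ)) (wt b S) n := by
    unfold pairSum
    refine sum_congr rfl fun i _ => sum_congr rfl fun j _ => ?_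
    simp only [hc, hdig, hS', wt_shift]
  rw [h3] at h2
  have h4 := hN n
  set W0 := ∑ k ∈ Icc 1 n, ((⌊Real.sqrt d * (b : ℝ) ^ k⌋ % (b : ℤ) : ℤ) : ℝ) with hW0
  have hW00 : 0 ≤ W0 := sum_nonneg fun k _ => by rw [← hdig]; exact Nat.cast_nonneg _
  have h5 : (∑ k ∈ Icc 1 (2 * t + n), (x b y k : ℝ)) = N c (2 * t + n) := rfl
  rw [h5] at h1
  have h6 : N c t ≤ H := N_le hc0 hc1 t
  have h7 : N c t * N c (2 * t + n) ≤ H * (W0 + 2 * H) :=
    mul_le_mul h6 h4 (N_nonneg hc0 _) hH0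
  have ht0 : (0 : ℝ) ≤ t := Nat.cast_nonneg _
  push_cast at h1
  have h8 : 0 ≤ ((2 * H + 2) * (2 * H) + (4 * t + 3)) * W0 := by positivity
  have h9 : 0 ≤ H * H := by positivity
  nlinarith

end Pool.Agent.L7h23.Master
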