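import Pool.Agent.L7h23.MasterCor

/-!
# Windows and sparse sets of sums
-/

set_option autoImplicit false
set_option linter.unusedSectionVars false

open Finset

namespace Pool.Agent.L7h23.Master

section
variable {b : ℕ} {c : ℕ → ℝ} {τ : ℝ}

lemma prod_sum (n : ℕ) (p q : ℕ → Prop) [DecidablePred p] [DecidablePred q] :
    ∑ i ∈ Icc 1 n, ∑ j ∈ Icc 1 n, c i * c j * (if p i ∧ q j then 1 else 0) =
      (∑ i ∈ (Icc 1 n).filter p, c i) * ∑ j ∈ (Icc 1 n).filter q, c j := by
  rw [sum_mul_sum, sum_filter]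
  refine sum_congr rfl fun i _ => ?_
  split_ifs with hi
  · rw [sum_filter]
    refine sum_congr rfl fun j _ => ?_
    by_cases hj : q j
    · rw [if_pos hj, if_pos ⟨hi, hj⟩, mul_one]
    · rw [if_neg hj, if_neg (fun h => hj h.2), mul_zero]
  · refine sum_eq_zero fun j _ => ?_
    rw [if_neg (fun h => hi h.1), mul_zero]

/-- windows -/
theorem windows (hb : 2 ≤ b) (hc0 : ∀ k, 0 ≤ c k) (hτ : 0 ≤ τ) (hm : Master b c τ)
    {δ : ℝ} (hδ0 : 0 ≤ δ) (hδ1 : δ ≤ 1 / 2) {ε : ℝ} (hε : 0 < ε) :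
    ∃ D : ℝ, 0 ≤ D ∧ ∀ n : ℕ,
      ((b : ℝ) - 1) * ((τ * (1 - 2 * δ) - ε) * n) ≤
        2 * ((N c (n / 2) + D) * (N c n - N c ⌊δ * n⌋₊ + D)) := by
  have hbR : (2 : ℝ) ≤ b := by exact_mod_cast hb
  obtain ⟨D, hD0, hD⟩ := hm ε hε
  have hb1 : (0 : ℝ) < (b : ℝ) - 1 := by linarith
  refine ⟨((b : ℝ) - 1) * (D + τ) + 1, by positivity, fun n => ?_⟩
  have hn0 : (0 : ℝ) ≤ n := Nat.cast_nonneg _
  set F : ℕ := ⌊δ * n⌋₊ with hF
  have hFle : (F : ℝ) ≤ δ * n := Nat.floor_le (by positivity)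
  have hF2 : F ≤ n / 2 := by
    rw [Nat.le_div_iff_mul_le (by norm_num)]
    have : (F : ℝ) * 2 ≤ n := by nlinarith
    exact_mod_cast this
  have hFn : F ≤ n := hF2.trans (Nat.div_le_self _ _)
  set U : ℕ := ⌈2 * δ * n⌉₊ with hU
  have hUlt : (U : ℝ) < 2 * δ * n + 1 := Nat.ceil_lt_add_one (by positivity)
  have hUge : 2 * δ * n ≤ (U : ℝ) := Nat.le_ceil _
  set S := Ico U n with hS
  have h1 := hD n S (fun R hR => mem_range.2 (mem_Ico.1 hR).2)
  have h2 : (n : ℝ) - 2 * δ * n - 1 ≤ S.card := by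
    rw [hS, Nat.card_Ico]
    have h3 : (n : ℝ) ≤ ((n - U : ℕ) : ℝ) + U := by
      have : n ≤ (n - U) + U := by omega
      exact_mod_cast this
    linarith
  set a := N c (n / 2) with ha
  set d := N c n - N c F with hd
  have ha0 : 0 ≤ a := N_nonneg hc0 _
  have hd0 : 0 ≤ d := by have := N_mono hc0 hFn; rw [hd]; linarith
  have hsplit : ∑ j ∈ (Icc 1 n).filter (fun j => F < j), c j = d := by
    rw [hd]
    unfold N
    have e : Icc 1 n = Icc 1 F ∪ (Icc 1 n).filter (fun j => F < j) := by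
      ext k
      simp only [mem_union, mem_filter, mem_Icc]
      constructor
      · rintro ⟨h1, h2⟩
        rcases Nat.lt_or_ge F k with h | h
        · exact Or.inr ⟨⟨h1, h2⟩, h⟩
        · exact Or.inl ⟨h1, h⟩
      · rintro (⟨h1, h2⟩ | ⟨h1, h2⟩)
        · exact ⟨h1, h2.trans hFn⟩
        · exact h1
    nth_rewrite 2 [e]
    rw [sum_union]
    · ring
    · rw [disjoint_left]
      intro k hk hk'
      have := (mem_Icc.1 hk).2
      have := (mem_filter.1 hk').2
      omega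
  have hhalf : ∑ i ∈ (Icc 1 n).filter (fun i => i ≤ n / 2), c i = a := by
    rw [ha]
    unfold N
    refine sum_congr ?_ fun _ _ => rfl
    ext k
    simp only [mem_filter, mem_Icc]
    constructor
    · rintro ⟨⟨h1, h2⟩, h3⟩; exact ⟨h1, h3⟩
    · rintro ⟨h1, h3⟩; exact ⟨⟨h1, h3.trans (Nat.div_le_self _ _)⟩, h3⟩
  have h3 : pairSum c (wt b S) n ≤ 1 / ((b : ℝ) - 1) * (2 * (a * d)) := by
    have h4 : pairSum c (wt b S) n ≤ pairSum c (fun m => 1 / ((b : ℝ) - 1) *
        (if U < m then 1 else 0)) n := by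
      refine pairSum_mono hc0 (fun m => ?_) n
      split_ifs with h
      · rw [mul_one]; exact wt_le hb S m
      · rw [mul_zero]
        unfold wt
        rw [filter_false_of_mem, sum_empty]
        intro R hR
        have := (mem_Ico.1 hR).1
        omega
    refine h4.trans ?_
    rw [pairSum_smul]
    refine mul_le_mul_of_nonneg_left ?_ (by positivity)
    refine (pairSum_le_full hc0 (fun i j => (if i ≤ n / 2 ∧ F < j then (1 : ℝ) else 0) +
      (if F < i ∧ j ≤ n / 2 then 1 else 0)) _ n (fun i j _ _ hij => ?_) (fun i j => ?_)).trans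
        (le_of_eq ?_)
    · by_cases hu : U < i + j
      · rw [if_pos hu]
        have hu' : (U : ℝ) < (i : ℝ) + j := by exact_mod_cast hu
        rcases le_total i j with h | h
        · have e1 : i ≤ n / 2 := by omega
          have e2 : F < j := by
            have : (i : ℝ) ≤ j := by exact_mod_cast h
            have : (F : ℝ) < j := by linarith
            exact_mod_cast this
          rw [if_pos ⟨e1, e2⟩]
          split_ifs <;> linarith
        · have e1 : j ≤ n / 2 := by omega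
          have e2 : F < i := by
            have : (j : ℝ) ≤ i := by exact_mod_cast h
            have : (F : ℝ) < i := by linarith
            exact_mod_cast this
          rw [if_pos (⟨e2, e1⟩ : F < i ∧ j ≤ n / 2)]
          split_ifs <;> linarith
      · rw [if_neg hu]
        split_ifs <;> linarith
    · split_ifs <;> linarith
    · simp only [mul_add, sum_add_distrib]
      rw [prod_sum, prod_sum, hsplit, hhalf]
      ring
  have hsum : (∑ k ∈ Icc 1 n, c k) = N c n := rfl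
  rw [hsum] at h1
  have h5 : N c n ≤ a + d := by
    have := N_mono hc0 hF2
    rw [hd]
    linarith
  have h6 := mul_le_mul_of_nonneg_left h2 hτ
  have h7 : D * (N c n + 1) ≤ D * (a + d + 1) := mul_le_mul_of_nonneg_left (by linarith) hD0
  have h8 : τ * (n - 2 * δ * n - 1) ≤ 1 / ((b : ℝ) - 1) * (2 * (a * d)) + ε * n +
      D * (a + d + 1) := by linarith
  have h9 := mul_le_mul_of_nonneg_left h8 hb1.le
  have e9 : ((b : ℝ) - 1) * (1 / ((b : ℝ) - 1) * (2 * (a * d)) + ε * n + D * (a + d + 1)) =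
      2 * (a * d) + ((b : ℝ) - 1) * ε * n + ((b : ℝ) - 1) * D * (a + d + 1) := by
    field_simp
  rw [e9] at h9
  set G := ((b : ℝ) - 1) * (D + τ) with hG
  have hG0 : 0 ≤ G := by positivity
  have e10 : 2 * ((a + (G + 1)) * (d + (G + 1))) =
      2 * (a * d) + 2 * (G + 1) * (a + d) + 2 * (G + 1) * (G + 1) := by ring
  rw [e10]
  have h11 : ((b : ℝ) - 1) * D * (a + d) ≤ 2 * (G + 1) * (a + d) := by
    apply mul_le_mul_of_nonneg_right _ (by positivity)
    have : 0 ≤ ((b : ℝ) - 1) * τ := by positivity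
    rw [hG]
    nlinarith
  have h12 : ((b : ℝ) - 1) * D + ((b : ℝ) - 1) * τ ≤ 2 * (G + 1) * (G + 1) := by
    have : ((b : ℝ) - 1) * D + ((b : ℝ) - 1) * τ = G := by rw [hG]; ring
    rw [this]
    nlinarith
  have e13 : ((b : ℝ) - 1) * ((τ * (1 - 2 * δ) - ε) * n) =
      ((b : ℝ) - 1) * (τ * (n - 2 * δ * n - 1)) - ((b : ℝ) - 1) * ε * n +
        ((b : ℝ) - 1) * τ := by ring
  rw [e13]
  nlinarith

/-- sparse sets of sums -/
theorem sparse (hb : 2 ≤ b) (hc0 : ∀ k, 0 ≤ c k) (hτ : 0 ≤ τ) (hm : Master b c τ)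
    {X : ℝ} (hX : 0 ≤ X) {ε : ℝ} (hε : 0 < ε) :
    ∃ η : ℝ, 0 < η ∧ ∃ n₀ : ℕ, ∀ n : ℕ, n₀ ≤ n → N c n ^ 2 ≤ X * n →
      ∀ Q : Finset ℕ, (Q.card : ℝ) ≤ η * n →
        ((b : ℝ) - 1) * ((τ - ε) * n) ≤ pairSum c (fun m => if m ∈ Q then 0 else 1) n := by
  have hbR : (2 : ℝ) ≤ b := by exact_mod_cast hb
  have hb1 : (1 : ℝ) ≤ (b : ℝ) - 1 := by linarith
  obtain ⟨D, hD0, hD⟩ := hm (ε / 4) (by positivity)
  obtain ⟨L, hL⟩ := pow_unbounded_of_one_lt (4 * X / ε) (by linarith : (1 : ℝ) < b)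
  have hL' : X / (b : ℝ) ^ L ≤ ε / 4 := by
    rw [div_le_iff₀ (by positivity)]
    rw [div_lt_iff₀ hε] at hL
    nlinarith
  set η : ℝ := ε / (4 * ((L : ℝ) + 1) * (τ + 1)) with hη
  have hη0 : 0 < η := by positivity
  have hηe : η * (4 * ((L : ℝ) + 1) * (τ + 1)) = ε := by rw [hη]; field_simp
  set u : ℝ := ε / (8 * (D + 1)) with hu
  have hu0 : 0 < u := by positivity
  have hue : u * (8 * (D + 1)) = ε := by rw [hu]; field_simp
  obtain ⟨n₁, hn₁⟩ := exists_nat_ge (X / u ^ 2)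
  obtain ⟨n₂, hn₂⟩ := exists_nat_ge (8 * D / ε)
  refine ⟨η, hη0, max n₁ n₂, fun n hn hN Q hQ => ?_⟩
  have hn0 : (0 : ℝ) ≤ n := Nat.cast_nonneg _
  have hnn₁ : X / u ^ 2 ≤ n := hn₁.trans (by exact_mod_cast (le_max_left _ _).trans hn)
  have hnn₂ : 8 * D / ε ≤ n := hn₂.trans (by exact_mod_cast (le_max_right _ _).trans hn)
  rw [div_le_iff₀ (by positivity)] at hnn₁
  rw [div_le_iff₀ hε] at hnn₂
  have hNu : N c n ≤ u * n := by
    by_contra hcon
    push Not at hcon
    have h1 : (u * n) ^ 2 < N c n ^ 2 := by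
      apply pow_lt_pow_left₀ hcon (by positivity) (by norm_num)
    have h2 : X * n ≤ (u * n) ^ 2 := by
      have e : (u * n) ^ 2 = (n * u ^ 2) * n := by ring
      rw [e]
      exact mul_le_mul_of_nonneg_right hnn₁ hn0
    linarith
  have hDN : D * (N c n + 1) ≤ ε / 4 * n := by
    have h1 : D * N c n ≤ D * (u * n) := mul_le_mul_of_nonneg_left hNu hD0
    have h2 : D * u ≤ ε / 8 := by
      have : D * u ≤ (D + 1) * u := mul_le_mul_of_nonneg_right (by linarith) hu0.le
      have e : (D + 1) * u = ε / 8 := by linarith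
      linarith
    have h3 : D * (u * n) ≤ ε / 8 * n := by
      rw [← mul_assoc]; exact mul_le_mul_of_nonneg_right h2 hn0
    linarith
  classical
  set S := (range n).filter (fun R => ∀ m ∈ Q, ¬ (R < m ∧ m ≤ R + L)) with hS
  have h1 := hD n S (filter_subset _ _)
  have hcard : (n : ℝ) - L * Q.card ≤ S.card := by
    have h2 := card_filter_add_card_filter_not (s := range n)
      (fun R => ∀ m ∈ Q, ¬ (R < m ∧ m ≤ R + L))
    rw [card_range] at h2
    have h3 : ((range n).filter (fun R => ¬ ∀ m ∈ Q, ¬ (R < m ∧ m ≤ R + L))) ⊆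
        (Q ×ˢ Icc 1 L).image (fun p => p.1 - p.2) := by
      intro R hR
      have hR' := (mem_filter.1 hR).2
      push Not at hR'
      obtain ⟨m, hm, hm1, hm2⟩ := hR'
      exact mem_image.2 ⟨(m, m - R), mem_product.2 ⟨hm, mem_Icc.2 ⟨by omega, by omega⟩⟩,
        by simp only; omega⟩
    have h4 := (card_le_card h3).trans card_image_le
    rw [card_product, Nat.card_Icc, Nat.add_sub_cancel] at h4
    have h5 : n ≤ S.card + Q.card * L := by rw [hS]; omega
    have h6 : (n : ℝ) ≤ S.card + Q.card * L := by exact_mod_cast h5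
    linarith
  have hwt : ∀ m, wt b S m ≤ 1 / ((b : ℝ) - 1) * (if m ∈ Q then 0 else 1) +
      1 / (((b : ℝ) - 1) * (b : ℝ) ^ L) * 1 := by
    intro m
    by_cases hmQ : m ∈ Q
    · rw [if_pos hmQ, mul_zero, zero_add, mul_one]
      have h2 : wt b S m ≤ ∑ R ∈ range (m - L), 1 / (b : ℝ) ^ (m - R) := by
        unfold wt
        refine sum_le_sum_of_subset_of_nonneg ?_ fun _ _ _ => by positivity
        intro R hR
        have h3 := (mem_filter.1 hR).2
        have h4 := (mem_filter.1 (mem_filter.1 hR).1).2 m hmQ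
        rw [mem_range]
        omega
      refine h2.trans ?_
      have h3 : ∑ R ∈ range (m - L), 1 / (b : ℝ) ^ (m - R) =
          1 / (b : ℝ) ^ L * ∑ R ∈ range (m - L), 1 / (b : ℝ) ^ ((m - L) - R) := by
        rw [mul_sum]
        refine sum_congr rfl fun R hR => ?_
        have := mem_range.1 hR
        have e : m - R = L + ((m - L) - R) := by omega
        rw [e, pow_add]
        field_simp
      rw [h3]
      have h4 := mul_le_mul_of_nonneg_left (geo_le hb (m - L))
        (by positivity : (0 : ℝ) ≤ 1 / (b : ℝ) ^ L)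
      refine h4.trans (le_of_eq ?_)
      field_simp
    · rw [if_neg hmQ, mul_one, mul_one]
      have h2 := wt_le hb S m
      have h3 : 0 ≤ 1 / (((b : ℝ) - 1) * (b : ℝ) ^ L) := by positivity
      linarith
  set P := pairSum c (fun m => if m ∈ Q then 0 else 1) n with hP
  have h2 : pairSum c (wt b S) n ≤ 1 / ((b : ℝ) - 1) * P +
      1 / (((b : ℝ) - 1) * (b : ℝ) ^ L) * (X * n) := by
    refine (pairSum_mono hc0 hwt n).trans ?_
    rw [pairSum_add, pairSum_smul, pairSum_smul, ← hP]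
    have h3 : pairSum c (fun _ => 1) n ≤ N c n ^ 2 := by
      refine (pairSum_le_full hc0 (fun _ _ => 1) _ n (fun _ _ _ _ _ => le_rfl)
        (fun _ _ => zero_le_one)).trans (le_of_eq ?_)
      unfold N
      rw [sq, sum_mul_sum]
      exact sum_congr rfl fun i _ => sum_congr rfl fun j _ => by ring
    have h4 := mul_le_mul_of_nonneg_left (h3.trans hN)
      (by positivity : (0 : ℝ) ≤ 1 / (((b : ℝ) - 1) * (b : ℝ) ^ L))
    linarith
  have h3 : 1 / (((b : ℝ) - 1) * (b : ℝ) ^ L) * (X * n) ≤ ε / 4 * n := by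
    have e : 1 / (((b : ℝ) - 1) * (b : ℝ) ^ L) * (X * n) =
        1 / ((b : ℝ) - 1) * (X / (b : ℝ) ^ L * n) := by field_simp
    rw [e]
    have h4 : 1 / ((b : ℝ) - 1) ≤ 1 := by rw [div_le_one (by linarith)]; exact hb1
    have h5 : X / (b : ℝ) ^ L * n ≤ ε / 4 * n := mul_le_mul_of_nonneg_right hL' hn0
    have h6 : 0 ≤ X / (b : ℝ) ^ L * n := by positivity
    calc 1 / ((b : ℝ) - 1) * (X / (b : ℝ) ^ L * n) ≤ 1 * (X / (b : ℝ) ^ L * n) :=
          mul_le_mul_of_nonneg_right h4 h6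
      _ ≤ _ := by linarith
  have hsum : (∑ k ∈ Icc 1 n, c k) = N c n := rfl
  rw [hsum] at h1
  have h4 : τ * (n - L * Q.card) ≤ τ * S.card := mul_le_mul_of_nonneg_left hcard hτ
  have h5 : τ * (L * Q.card) ≤ ε / 4 * n := by
    have h6 : (L : ℝ) * Q.card ≤ L * (η * n) :=
      mul_le_mul_of_nonneg_left hQ (Nat.cast_nonneg _)
    have h7 : τ * (L * Q.card) ≤ τ * (L * (η * n)) := mul_le_mul_of_nonneg_left h6 hτ
    have h8 : τ * (L * η) ≤ ε / 4 := by
      have hL0 : (0 : ℝ) ≤ L := Nat.cast_nonneg _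
      have : 0 ≤ η * (L + τ + 1) := by positivity
      nlinarith
    have e : τ * (L * (η * n)) = τ * (L * η) * n := by ring
    rw [e] at h7
    have h9 := mul_le_mul_of_nonneg_right h8 hn0
    linarith
  have h6 : (τ - ε) * n ≤ 1 / ((b : ℝ) - 1) * P := by nlinarith
  have h7 := mul_le_mul_of_nonneg_left h6 (by linarith : (0 : ℝ) ≤ (b : ℝ) - 1)
  have e : ((b : ℝ) - 1) * (1 / ((b : ℝ) - 1) * P) = P := by field_simp
  linarith

end

end Pool.Agent.L7h23.Master
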